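import Mathlib

/-!
Forgetting automata and deterministic pushdown automata.
-/

set_option autoImplicit false

namespace Pool.Agent.P.MP_47d067_lc

/-- The six operations of a forgetting automaton: move, erase, delete; left or right. -/
inductive Op
  | mvL | mvR | erL | erR | dlL | dlR
  deriving DecidableEq

/-- Tape symbols: input letters, the left sentinel, the right sentinel and the blank. -/
inductive TSym (A : Type)
  | letter (a : A)
  | lft
  | rgt
  | blank

/-- A forgetting automaton with input alphabet `A` and state set `S`; `ops` is the set of
permitted operations. -/
structure ForgAut (A S : Type) where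
  ops : Set Op
  trans : S → TSym A → Set (S × Op)
  trans_ops : ∀ s x p, p ∈ trans s x → p.2 ∈ ops
  start : S
  final : Set S

/-- The tape as a doubly linked list with a head: the fields to the left of the head (nearest
first), the field under the head, and the fields to the right of the head (nearest first). -/
structure Tape (A : Type) where
  left : List (TSym A)
  cur : TSym A
  right : List (TSym A)

/-- The effect of an operation on the tape (`none` if there is no field to move to). -/
def Tape.apply {A : Type} : Op → Tape A → Option (Tape A)
  | Op.mvL, ⟨x :: l, c, r⟩ => some ⟨l, x, c :: r⟩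
  | Op.mvR, ⟨l, c, x :: r⟩ => some ⟨c :: l, x, r⟩
  | Op.erL, ⟨x :: l, _, r⟩ => some ⟨l, x, TSym.blank :: r⟩
  | Op.erR, ⟨l, _, x :: r⟩ => some ⟨TSym.blank :: l, x, r⟩
  | Op.dlL, ⟨x :: l, _, r⟩ => some ⟨l, x, r⟩
  | Op.dlR, ⟨l, _, x :: r⟩ => some ⟨l, x, r⟩
  | _, _ => none

/-- The operation really performed: on the left sentinel the head moves right, on the right
sentinel it moves left, whatever operation the transition names. -/
def effOp {A : Type} : TSym A → Op → Op
  | TSym.lft, _ => Op.mvR
  | TSym.rgt, _ => Op.mvL
  | _, o => o

/-- One step of a forgetting automaton on configurations (state, tape). -/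
def ForgAut.Step {A S : Type} (M : ForgAut A S) (c c' : S × Tape A) : Prop :=
  ∃ o, (c'.1, o) ∈ M.trans c.1 c.2.cur ∧ Tape.apply (effOp c.2.cur o) c.2 = some c'.2

/-- The initial configuration on input `w`: the head is on the left sentinel. -/
def ForgAut.init {A S : Type} (M : ForgAut A S) (w : List A) : S × Tape A :=
  (M.start, ⟨[], TSym.lft, w.map TSym.letter ++ [TSym.rgt]⟩)

/-- The accepted language: some computation from the initial configuration reaches an
accepting state. -/
def ForgAut.language {A S : Type} (M : ForgAut A S) : Language A :=
  {w | ∃ c, Relation.ReflTransGen M.Step (M.init w) c ∧ c.1 ∈ M.final}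

/-- At most one transition for each state and scanned symbol. -/
def ForgAut.Deterministic {A S : Type} (M : ForgAut A S) : Prop :=
  ∀ s x, (M.trans s x).Subsingleton

/-- `L` is accepted by a deterministic forgetting automaton (with finitely many states) whose
set of permitted operations is `O`. -/
def DetForg {A : Type} (O : Set Op) (L : Language A) : Prop :=
  ∃ (S : Type) (_ : Fintype S) (M : ForgAut A S),
    M.ops = O ∧ M.Deterministic ∧ M.language = L

/-- A deterministic pushdown automaton with input alphabet `A`, states `Q` and stack alphabet
`G`. `trans q (some a) Z` is the move reading `a`, `trans q none Z` the move reading nothing;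
the top symbol `Z` is replaced by the given word. -/
structure DPDA (A Q G : Type) where
  trans : Q → Option A → G → Option (Q × List G)
  det : ∀ q Z, trans q none Z ≠ none → ∀ a, trans q (some a) Z = none
  start : Q
  bottom : G
  final : Set Q

/-- One step of a pushdown automaton on configurations (state, unread input, stack). -/
inductive DPDA.Step {A Q G : Type} (M : DPDA A Q G) :
    Q × List A × List G → Q × List A × List G → Prop
  | read (q q' : Q) (a : A) (w : List A) (Z : G) (u s : List G) :
      M.trans q (some a) Z = some (q', u) → DPDA.Step M (q, a :: w, Z :: s) (q', w, u ++ s)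
  | eps (q q' : Q) (w : List A) (Z : G) (u s : List G) :
      M.trans q none Z = some (q', u) → DPDA.Step M (q, w, Z :: s) (q', w, u ++ s)

/-- The language accepted by final state. -/
def DPDA.language {A Q G : Type} (M : DPDA A Q G) : Language A :=
  {w | ∃ q s, q ∈ M.final ∧
    Relation.ReflTransGen M.Step (M.start, w, [M.bottom]) (q, [], s)}

/-- `L` is a deterministic context-free language. -/
def IsDCFL {A : Type} (L : Language A) : Prop :=
  ∃ (Q G : Type) (_ : Fintype Q) (_ : Fintype G) (M : DPDA A Q G), M.language = L

end Pool.Agent.P.MP_47d067_lc
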