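import Pool.Agent.P.MP_47d067_lc.Virt

/-!
Walks on the tree of virtual stacks, zones, weights and pigeonhole lemmas.
-/

set_option autoImplicit false

namespace Pool.Agent.P.MP_47d067_lc

open Finset

section Pigeon

theorem geo_pigeon {α : Type} (S : Finset α) (f : α → ℕ) :
    ∃ t, S.card ≤ 2 ^ (t + 1) * (S.filter fun a => f a = t).card := by
  classical
  by_contra h
  push Not at h
  have hS : S.card = ∑ t ∈ range (S.sup f + 1), (S.filter fun a => f a = t).card :=
    card_eq_sum_card_fiberwise fun a ha => mem_range.2 (Nat.lt_succ_of_le (le_sup (f := f) ha))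
  have key : ∀ n, (∑ t ∈ range n, (S.filter fun a => f a = t).card) * 2 ^ n + S.card ≤
      S.card * 2 ^ n := by
    intro n
    induction n with
    | zero => simp
    | succ n ih =>
      rw [sum_range_succ]
      have := (h n).le
      rw [pow_succ] at this ⊢
      nlinarith
  have h1 := key (S.sup f + 1)
  rw [← hS] at h1
  have h2 := h 0
  omega

theorem unif_pigeon {α β : Type} [DecidableEq β] (S : Finset α) (f : α → β) (T : Finset β)
    (hT : T.Nonempty) (hf : ∀ a ∈ S, f a ∈ T) :
    ∃ b ∈ T, S.card ≤ T.card * (S.filter fun a => f a = b).card := by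
  obtain ⟨b, hb, hmax⟩ := T.exists_max_image (fun b => (S.filter fun a => f a = b).card) hT
  refine ⟨b, hb, ?_⟩
  rw [card_eq_sum_card_fiberwise (f := f) (t := T) hf]
  exact (sum_le_card_nsmul _ _ _ hmax).trans (by simp)

/-- Pigeonhole on a number with geometric weights together with a bit. -/
theorem geo_bool_pigeon {α : Type} (S : Finset α) (f : α → ℕ) (b : α → Bool) :
    ∃ t c, S.card ≤ 2 ^ (t + 2) * (S.filter fun a => f a = t ∧ b a = c).card := by
  classical
  obtain ⟨t, ht⟩ := geo_pigeon S f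
  obtain ⟨c, -, hc⟩ := unif_pigeon (S.filter fun a => f a = t) b univ univ_nonempty
    (fun _ _ => mem_univ _)
  refine ⟨t, c, ht.trans ?_⟩
  rw [filter_filter] at hc
  simp only [card_univ, Fintype.card_bool] at hc
  calc 2 ^ (t + 1) * (S.filter fun a => f a = t).card
      ≤ 2 ^ (t + 1) * (2 * (S.filter fun a => f a = t ∧ b a = c).card) :=
        Nat.mul_le_mul_left _ hc
    _ = _ := by ring

theorem exists_period {K : Type} [AddCommMonoid K] [Finite K] (o : K) :
    ∃ P, 1 ≤ P ∧ ∀ a b, P ≤ a → P ≤ b → a % P = b % P → a • o = b • o := by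
  obtain ⟨i, j, hij, h⟩ : ∃ i j : ℕ, i < j ∧ i • o = j • o := by
    obtain ⟨i, j, hne, h⟩ := Finite.exists_ne_map_eq_of_infinite fun n : ℕ => n • o
    rcases lt_or_gt_of_ne hne with hl | hl
    · exact ⟨i, j, hl, h⟩
    · exact ⟨j, i, hl, h.symm⟩
  obtain ⟨p, rfl⟩ := Nat.exists_eq_add_of_lt hij
  have h1 : ∀ c a, i ≤ a → (a + c * (p + 1)) • o = a • o := by
    intro c
    induction c with
    | zero => simp
    | succ c ih =>
      intro a ha
      obtain ⟨a', rfl⟩ := Nat.exists_eq_add_of_le ha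
      rw [← ih _ ha, show i + a' + (c + 1) * (p + 1) = (i + p + 1) + (a' + c * (p + 1)) by ring,
        add_nsmul, ← h, ← add_nsmul, add_assoc]
  have h2 : ∀ a b, (p + 1) * (i + 1) ≤ a → a ≤ b →
      a % ((p + 1) * (i + 1)) = b % ((p + 1) * (i + 1)) → a • o = b • o := by
    intro a b ha hab hm
    obtain ⟨c, hc⟩ := (Nat.modEq_iff_dvd' hab).1 hm
    have : b = a + ((i + 1) * c) * (p + 1) := by
      have : b = a + (b - a) := by omega
      rw [this, hc]; ring
    rw [this, h1 _ _ (by nlinarith)]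
  refine ⟨(p + 1) * (i + 1), Nat.succ_le_of_lt (by positivity), fun a b ha hb hm => ?_⟩
  rcases le_total a b with hab | hab
  · exact h2 a b ha hab hm
  · exact (h2 b a hb hab hm.symm).symm

end Pigeon

variable {κ : Type} [DecidableEq κ]

/-- A step on a vertex together with the number of pushes made so far. -/
def pstep (s : List κ × ℕ) (x : Letter κ) : List κ × ℕ :=
  (vstep s.1 x, if (vstep s.1 x).length = s.1.length + 1 then s.2 + 1 else s.2)

def prun (s : List κ × ℕ) (v : List (Letter κ)) : List κ × ℕ := v.foldl pstep s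

@[simp] theorem prun_nil (s : List κ × ℕ) : prun s [] = s := rfl
@[simp] theorem prun_cons (s : List κ × ℕ) (x : Letter κ) (v : List (Letter κ)) :
    prun s (x :: v) = prun (pstep s x) v := rfl
theorem prun_append (s : List κ × ℕ) (v w : List (Letter κ)) :
    prun s (v ++ w) = prun (prun s v) w := List.foldl_append ..

theorem prun_fst (s : List κ × ℕ) (v : List (Letter κ)) : (prun s v).1 = vrun s.1 v := by
  induction v generalizing s with
  | nil => rfl
  | cons x v ih => exact ih _

theorem pstep_push (u : List κ) (e : ℕ) (ν : κ) : pstep (u, e) (none, ν) = (ν :: u, e + 1) := by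
  simp [pstep, vstep_push]

theorem pstep_miss (t p : κ) (rest : List κ) (e : ℕ) (a ν : κ) (h : a ≠ p) :
    pstep (t :: p :: rest, e) (some a, ν) = (ν :: t :: p :: rest, e + 1) := by
  simp [pstep, vstep_miss _ _ _ _ _ h]

theorem pstep_pop (t p : κ) (rest : List κ) (e : ℕ) (ν : κ) :
    pstep (t :: p :: rest, e) (some p, ν) = (p :: rest, e) := by
  simp [pstep, vstep_pop]

theorem prun_len (s : List κ × ℕ) (v : List (Letter κ)) :
    v.length + (prun s v).1.length + 2 * s.2 = s.1.length + 2 * (prun s v).2 ∧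
      s.2 ≤ (prun s v).2 ∧ (prun s v).2 ≤ s.2 + v.length := by
  induction v generalizing s with
  | nil => simp
  | cons x v ih =>
    have := ih (pstep s x)
    rw [prun_cons]
    have h1 : (pstep s x).1.length + 1 + 2 * s.2 = s.1.length + 2 * (pstep s x).2 ∧
        s.2 ≤ (pstep s x).2 ∧ (pstep s x).2 ≤ s.2 + 1 := by
      rcases vstep_cases s.1 x with h | ⟨t, p, rest, hu, -, h⟩
      · simp [pstep, h]; omega
      · simp only [pstep, h]
        rw [hu]
        simp
    simp only [List.length_cons]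
    omega

/-- All vertices visited after the start satisfy `P`. -/
def InZ (P : List κ × ℕ → Prop) : List κ × ℕ → List (Letter κ) → Prop
  | _, [] => True
  | s, x :: v => P (pstep s x) ∧ InZ P (pstep s x) v

theorem InZ_append (P : List κ × ℕ → Prop) (s : List κ × ℕ) (v w : List (Letter κ)) :
    InZ P s (v ++ w) ↔ InZ P s v ∧ InZ P (prun s v) w := by
  induction v generalizing s with
  | nil => simp [InZ]
  | cons x v ih => simp [InZ, ih, and_assoc]

theorem InZ.mono {P P' : List κ × ℕ → Prop} (h : ∀ s, P s → P' s) {s : List κ × ℕ}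
    {v : List (Letter κ)} (hv : InZ P s v) : InZ P' s v := by
  induction v generalizing s with
  | nil => trivial
  | cons x v ih => exact ⟨h _ hv.1, ih hv.2⟩

theorem InZ.last {P : List κ × ℕ → Prop} {s : List κ × ℕ} {v : List (Letter κ)} (hs : P s)
    (hv : InZ P s v) : P (prun s v) := by
  induction v generalizing s with
  | nil => exact hs
  | cons x v ih => exact ih hv.1 hv.2

theorem InZ.vrun_ctx {P : List κ × ℕ → Prop} (hP : ∀ s, P s → 2 ≤ s.1.length) {s : List κ × ℕ}
    {v : List (Letter κ)} (hs : 2 ≤ s.1.length) (hv : InZ P s v) (c : List κ) :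
    vrun (s.1 ++ c) v = vrun s.1 v ++ c := by
  induction v generalizing s with
  | nil => rfl
  | cons x v ih =>
    rw [vrun_cons, vrun_cons, vstep_append _ _ _ hs]
    exact ih (s := pstep s x) (hP _ hv.1) hv.2

/-- The vertices above `r` all of whose ancestors down to `r` have weight less than one. -/
inductive Zn (r : List κ) (W : List κ → ℝ) : List κ → Prop
  | root : W r < 1 → Zn r W r
  | child {u ν} : Zn r W u → W (ν :: u) < 1 → Zn r W (ν :: u)

omit [DecidableEq κ] in
theorem Zn.suffix {r : List κ} {W : List κ → ℝ} {u : List κ} (h : Zn r W u) : r <:+ u := by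
  induction h with
  | root => exact List.suffix_refl _
  | child _ _ ih => exact ih.trans (List.suffix_cons _ _)

omit [DecidableEq κ] in
theorem Zn.lt_one {r : List κ} {W : List κ → ℝ} {u : List κ} (h : Zn r W u) : W u < 1 := by
  cases h with
  | root h => exact h
  | child _ h => exact h

omit [DecidableEq κ] in
theorem Zn.parent {r : List κ} {W : List κ → ℝ} {ν : κ} {u : List κ} (h : Zn r W (ν :: u))
    (hl : r.length ≤ u.length) : Zn r W u := by
  generalize hx : ν :: u = x at h
  cases h with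
  | root h => subst hx; simp at hl
  | child h _ => cases hx; exact h

omit [DecidableEq κ] in
theorem Zn.trans {r γ : List κ} {W W' : List κ → ℝ} (h : Zn r W γ) (hW : ∀ u, W u ≤ W' u)
    {u : List κ} (h' : Zn γ W' u) : Zn r W u := by
  induction h' with
  | root => exact h
  | child _ hl ih => exact Zn.child ih ((hW _).trans_lt hl)

/-- The zone: small weights, and a number of pushes that is either small modulo `P` or comes
from a straight ascent. -/
def Zone (P : ℕ) (r : List κ) (W : List κ → ℝ) (e0 : ℕ) (s : List κ × ℕ) : Prop :=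
  Zn r W s.1 ∧ (s.2 % P + r.length ≤ s.1.length ∨ s.2 + r.length = e0 + s.1.length)

omit [DecidableEq κ] in
theorem Zone.root (P : ℕ) {r : List κ} {W : List κ → ℝ} (e0 : ℕ) (h : W r < 1) :
    Zone P r W e0 (r, e0) := ⟨Zn.root h, Or.inr rfl⟩

omit [DecidableEq κ] in
theorem Zone.length {P : ℕ} {r : List κ} {W : List κ → ℝ} {e0 : ℕ} {s : List κ × ℕ}
    (h : Zone P r W e0 s) : r.length ≤ s.1.length := h.1.suffix.length_le

theorem succ_mod_le (e n P : ℕ) : (e + n) % P ≤ e % P + n := by
  rw [← Nat.mod_add_mod]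
  exact Nat.mod_le _ _

omit [DecidableEq κ] in
theorem Zone.trans {P : ℕ} {r γ : List κ} {W W' : List κ → ℝ} {e0 e1 : ℕ}
    (h : Zone P r W e0 (γ, e1)) (hW : ∀ u, W u ≤ W' u) {s : List κ × ℕ}
    (h' : Zone P γ W' e1 s) : Zone P r W e0 s := by
  refine ⟨h.1.trans hW h'.1, ?_⟩
  have l1 := h.length
  have l2 := h'.length
  simp only at l1
  rcases h'.2 with h2 | h2
  · left; omega
  · rcases h.2 with h3 | h3
    · left
      have : s.2 = e1 + (s.1.length - γ.length) := by omega
      have h4 := succ_mod_le e1 (s.1.length - γ.length) P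
      rw [← this] at h4
      simp only at h3
      omega
    · right
      simp only at h3
      omega

omit [DecidableEq κ] in
theorem Zone.push {P : ℕ} {r : List κ} {W : List κ → ℝ} {e0 : ℕ} {u : List κ} {e : ℕ}
    (h : Zone P r W e0 (u, e)) {ν : κ} (hν : W (ν :: u) < 1) :
    Zone P r W e0 (ν :: u, e + 1) := by
  refine ⟨Zn.child h.1 hν, ?_⟩
  have := succ_mod_le e 1 P
  rcases h.2 with h2 | h2
  · left; simp only [List.length_cons] at h2 ⊢; omega
  · right; simp only [List.length_cons] at h2 ⊢; omega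

variable [Fintype κ]

def SuperH (W : List κ → ℝ) : Prop :=
  (∀ u, 0 ≤ W u) ∧ ∀ u, ∑ ν, W (ν :: u) ≤ 16 * W u

omit [DecidableEq κ] in
theorem SuperH.add {W W' : List κ → ℝ} (h : SuperH W) (h' : SuperH W') :
    SuperH fun u => W u + W' u := by
  refine ⟨fun u => add_nonneg (h.1 u) (h'.1 u), fun u => ?_⟩
  rw [sum_add_distrib]
  linarith [h.2 u, h'.2 u]

omit [DecidableEq κ] in
theorem SuperH.good_card {W : List κ → ℝ} (h : SuperH W) (u : List κ) (C : ℕ) (hu : W u ≤ C) :
    Fintype.card κ ≤ (univ.filter fun ν => W (ν :: u) < 1).card + 16 * C := by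
  have h1 : ((univ.filter fun ν => ¬ W (ν :: u) < 1).card : ℝ) ≤ ∑ ν, W (ν :: u) := by
    calc ((univ.filter fun ν => ¬ W (ν :: u) < 1).card : ℝ)
        = ∑ _ν ∈ univ.filter fun ν => ¬ W (ν :: u) < 1, (1 : ℝ) := by simp
      _ ≤ ∑ ν ∈ univ.filter fun ν => ¬ W (ν :: u) < 1, W (ν :: u) :=
          sum_le_sum fun ν hν => not_lt.1 (mem_filter.1 hν).2
      _ ≤ _ := sum_le_sum_of_subset_of_nonneg (filter_subset _ _) fun ν _ _ => h.1 _
  have h2 : ((univ.filter fun ν => ¬ W (ν :: u) < 1).card : ℝ) ≤ ((16 * C : ℕ) : ℝ) := by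
    push_cast
    linarith [h.2 u]
  have h3 := card_filter_add_card_filter_not (s := (univ : Finset κ)) fun ν => W (ν :: u) < 1
  have h4 : (univ.filter fun ν => ¬ W (ν :: u) < 1).card ≤ 16 * C := by exact_mod_cast h2
  rw [card_univ] at h3
  omega

theorem SuperH.exists_good {W : List κ → ℝ} (h : SuperH W) (hn : 18 ≤ Fintype.card κ)
    {u : List κ} (hu : W u < 1) (a : Option κ) : ∃ ν, W (ν :: u) < 1 ∧ a ≠ some ν := by
  have h1 := h.good_card u 1 (by simpa using hu.le)
  obtain ⟨ν, hν, ν', hν', hne⟩ :=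
    one_lt_card.1 (show 1 < (univ.filter fun ν => W (ν :: u) < 1).card by omega)
  by_cases ha : a = some ν
  · exact ⟨ν', (mem_filter.1 hν').2, fun h => hne (Option.some_injective _ (ha.symm.trans h))⟩
  · exact ⟨ν, (mem_filter.1 hν).2, ha⟩

/-- The weight of a finite set of vertices seen from `u`. -/
noncomputable def wt (Γ : Finset (List κ)) (u : List κ) : ℝ :=
  ∑ γ ∈ Γ, if u <:+ γ then (1 / 16 : ℝ) ^ (γ.length - u.length) else 0

theorem wt_superH (Γ : Finset (List κ)) : SuperH (wt Γ) := by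
  refine ⟨fun u => sum_nonneg fun γ _ => by split_ifs <;> positivity, fun u => ?_⟩
  simp only [wt]
  rw [sum_comm, mul_sum]
  refine sum_le_sum fun γ _ => ?_
  by_cases h : ∃ ν, (ν :: u) <:+ γ
  · obtain ⟨ν, hν⟩ := h
    have hu : u <:+ γ := (List.suffix_cons ν u).trans hν
    rw [sum_eq_single ν, if_pos hν, if_pos hu]
    · have hl := hν.length_le
      simp only [List.length_cons] at hl ⊢
      rw [show γ.length - u.length = (γ.length - (u.length + 1)) + 1 by omega, pow_succ]
      exact le_of_eq (by ring)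
    · intro ν' _ hne
      rw [if_neg]
      intro h'
      have := (List.suffix_of_suffix_length_le h' hν (by simp)).eq_of_length (by simp)
      exact hne (List.cons.inj this).1
    · simp
  · push Not at h
    simp only [h, if_false, sum_const_zero]
    split_ifs <;> positivity

omit [Fintype κ] in
theorem wt_self {Γ : Finset (List κ)} {γ : List κ} (h : γ ∈ Γ) : 1 ≤ wt Γ γ := by
  have := single_le_sum (f := fun γ' => if γ <:+ γ' then (1 / 16 : ℝ) ^ (γ'.length - γ.length)
    else 0) (fun γ' _ => by split_ifs <;> positivity) h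
  simpa [wt] using this

omit [Fintype κ] in
theorem wt_bound (Γ : Finset (List κ)) (u : List κ) (C : ℕ)
    (h : ∀ t, (Γ.filter fun γ => γ.length - u.length = t).card ≤ C * 8 ^ t) :
    wt Γ u ≤ 2 * C := by
  let f : List κ → ℕ := fun γ => γ.length - u.length
  calc wt Γ u ≤ ∑ γ ∈ Γ, (1 / 16 : ℝ) ^ f γ :=
        sum_le_sum fun γ _ => by split_ifs; exact le_rfl; positivity
    _ = ∑ t ∈ range (Γ.sup f + 1), ∑ γ ∈ Γ.filter fun γ => f γ = t, (1 / 16 : ℝ) ^ f γ :=
        (sum_fiberwise_of_maps_to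
          (fun γ hγ => mem_range.2 (Nat.lt_succ_of_le (le_sup (f := f) hγ))) _).symm
    _ ≤ ∑ t ∈ range (Γ.sup f + 1), C * (1 / 2 : ℝ) ^ t := by
        refine sum_le_sum fun t _ => ?_
        rw [sum_congr rfl (g := fun _ => (1 / 16 : ℝ) ^ t)
          fun γ hγ => by rw [(mem_filter.1 hγ).2], sum_const, nsmul_eq_mul]
        have h1 : ((Γ.filter fun γ => f γ = t).card : ℝ) ≤ C * 8 ^ t := by exact_mod_cast h t
        calc _ ≤ (C * 8 ^ t : ℝ) * (1 / 16) ^ t := by gcongr
          _ = _ := by rw [mul_assoc, ← mul_pow]; norm_num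
    _ ≤ 2 * C := by
        rw [← mul_sum, mul_comm]
        gcongr
        exact sum_geometric_two_le _

/-! ### Steering a walk inside a zone -/

section Steer

variable {P : ℕ} {r : List κ} {W : List κ → ℝ} {e0 : ℕ}

theorem steer_sync (hW : SuperH W) (hn : 18 ≤ Fintype.card κ) (n : ℕ) (u : List κ) (e : ℕ)
    (h : Zone P r W e0 (u, e)) : ∃ η : List κ, ∃ w : List (Letter κ),
      InZ (Zone P r W e0) (u, e) w ∧ prun (u, e) w = (η ++ u, e + n) ∧
      ∀ u', vrun u' w = η ++ u' := by
  induction n generalizing u e with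
  | zero => exact ⟨[], [], trivial, rfl, fun _ => rfl⟩
  | succ n ih =>
    obtain ⟨ν, hν, -⟩ := hW.exists_good hn h.1.lt_one none
    obtain ⟨η, w, h1, h2, h3⟩ := ih (ν :: u) (e + 1) (h.push hν)
    refine ⟨η ++ [ν], (none, ν) :: w, ?_, ?_, fun u' => ?_⟩
    · rw [InZ, pstep_push]; exact ⟨h.push hν, h1⟩
    · rw [prun_cons, pstep_push, h2]; simp; omega
    · rw [vrun_cons, vstep_push, h3]; simp

theorem steer_up (hW : SuperH W) (hn : 18 ≤ Fintype.card κ) (T : List κ) (b0 b1 : κ)
    (rest : List κ) (e : ℕ) (h : Zone P r W e0 (b0 :: b1 :: rest, e))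
    (h1 : T.head? ≠ some b1) (h0 : T.tail.head? ≠ some b0) :
    ∃ w : List (Letter κ), w.map Prod.fst = T.map some ∧
      InZ (Zone P r W e0) (b0 :: b1 :: rest, e) w := by
  induction T generalizing b0 b1 rest e with
  | nil => exact ⟨[], rfl, trivial⟩
  | cons a T ih =>
    obtain ⟨ν, hν, hν'⟩ := hW.exists_good hn h.1.lt_one T.tail.head?
    obtain ⟨w, h2, h3⟩ := ih ν b0 (b1 :: rest) (e + 1) (h.push hν) h0 hν'
    refine ⟨(some a, ν) :: w, by simp [h2], ?_⟩
    rw [InZ, pstep_miss _ _ _ _ _ _ (by simpa using h1)]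
    exact ⟨h.push hν, h3⟩

/-- What the descent achieves: the first walk has gone down to `a :: a1 :: a2 :: T`, the second
one is in its zone and will go up on the tests `a1`, `a2`. -/
def Split (Z : List κ × ℕ → Prop) (f : List κ) (s : List κ × ℕ) : Prop :=
  ∃ (w : List (Letter κ)) (a a1 a2 : κ) (T : List κ) (b0 b1 : κ) (rest : List κ) (e' : ℕ),
    InZ Z s w ∧ prun s w = (b0 :: b1 :: rest, e') ∧ Z (b0 :: b1 :: rest, e') ∧
    (∀ c, vrun (f ++ c) w = a :: a1 :: a2 :: T ++ c) ∧ a1 ≠ b1 ∧ a2 ≠ b0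

theorem steer_miss (hW : SuperH W) (hn : 18 ≤ Fintype.card κ) (t a : κ) (T : List κ)
    (hT : 2 ≤ T.length) (t' a' : κ) (T' : List κ) (e : ℕ) (hne : a ≠ a')
    (h : Zone P r W e0 (t' :: a' :: T', e)) :
    Split (Zone P r W e0) (t :: a :: T) (t' :: a' :: T', e) := by
  match T, hT with
  | a1 :: a2 :: T, _ =>
    obtain ⟨ν, hν, hν'⟩ := hW.exists_good hn h.1.lt_one (some a)
    have z1 := h.push hν
    obtain ⟨η, hη, hη'⟩ := hW.exists_good hn z1.1.lt_one (some a1)
    have z2 := z1.push hη
    obtain ⟨ν', hν2, hν2'⟩ := hW.exists_good hn z2.1.lt_one (some a2)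
    have z3 := z2.push hν2
    have hne2 : a ≠ ν := by simpa using hν'
    refine ⟨[(some a, ν), (none, η), (some a, ν')], a, a1, a2, T, ν', η, ν :: t' :: a' :: T',
      e + 1 + 1 + 1, ?_, ?_, z3, fun c => ?_, by simpa using hη', by simpa using hν2'⟩
    · simp only [InZ, pstep_miss _ _ _ _ _ _ hne, pstep_push, pstep_miss _ _ _ _ _ _ hne2]
      exact ⟨z1, z2, z3, trivial⟩
    · simp only [prun_cons, prun_nil, pstep_miss _ _ _ _ _ _ hne, pstep_push,
        pstep_miss _ _ _ _ _ _ hne2]
    · simp only [vrun_cons, vrun_nil, List.cons_append, vstep_pop, vstep_push]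

theorem steer_down (hW : SuperH W) (hn : 18 ≤ Fintype.card κ) (x x' : κ) (hx : x ≠ x')
    (r1 r2 : List κ) (hr1 : 2 ≤ r1.length) (hr : r.length = r2.length + 2) (e : ℕ)
    (he : e % P = 0) (ρ ρ' : List κ) (hl : ρ.length = ρ'.length) (t t' : κ)
    (h : Zone P r W e0 (t' :: (ρ' ++ x' :: r2), e)) :
    Split (Zone P r W e0) (t :: (ρ ++ x :: r1)) (t' :: (ρ' ++ x' :: r2), e) := by
  induction ρ generalizing ρ' t t' with
  | nil =>
    obtain rfl : ρ' = [] := List.length_eq_zero_iff.1 hl.symm
    exact steer_miss hW hn t x r1 hr1 t' x' r2 e hx h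
  | cons a ρ ih =>
    match ρ', hl with
    | a' :: ρ', hl =>
      by_cases ha : a = a'
      · subst ha
        have hz : Zone P r W e0 (a :: (ρ' ++ x' :: r2), e) := by
          refine ⟨h.1.parent (by simp; omega), Or.inl ?_⟩
          simp; omega
        obtain ⟨w, b, a1, a2, T, b0, b1, rest, e', h1, h2, h3, h4, h5⟩ :=
          ih ρ' (by simpa using hl) a a hz
        refine ⟨(some a, t) :: w, b, a1, a2, T, b0, b1, rest, e', ?_, ?_, h3, fun c => ?_, h5⟩
        · rw [InZ, List.cons_append, pstep_pop]; exact ⟨hz, h1⟩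
        · rw [prun_cons, List.cons_append, pstep_pop]; exact h2
        · rw [vrun_cons]
          simp only [List.cons_append, vstep_pop]
          exact h4 c
      · exact steer_miss hW hn t a (ρ ++ x :: r1) (by simp; omega) t' a' _ e ha h

end Steer

end Pool.Agent.P.MP_47d067_lc
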