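import Pool.Agent.P.MP_47d067_lc.MachC
import Pool.Agent.P.MP_47d067_lc.Walk

/-!
Members of separated families: configurations of the stack machine over infinitely many contexts.
-/

set_option autoImplicit false

namespace Pool.Agent.P.MP_47d067_lc

open Finset MachC

variable {κ Q K : Type} [DecidableEq κ] [AddCommMonoid K]

def Corr (M : MachC (Letter κ) Q K) (q : Q) (σ : List (Cell (Letter κ) K)) (g : K)
    (u : List κ) : Prop :=
  u ≠ [] ∧ ∀ w, M.F q σ g w ↔ (vrun u w).length = 1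

def CorrL (M : MachC (Letter κ) Q K) (q : Q) (σ : List (Cell (Letter κ) K)) (g : K)
    (u : List κ) : Prop :=
  u ≠ [] ∧ ∀ w, M.L q σ g w ↔ (vrun u w).length = 1

variable {M : MachC (Letter κ) Q K}

theorem Corr.read {q σ g u} (h : Corr M q σ g u) (x : Letter κ) :
    CorrL M q ((some x, g) :: σ) 0 (vstep u x) :=
  ⟨vstep_ne_nil _ _, fun w => (M.F_cons ..).symm.trans (h.2 (x :: w))⟩

theorem CorrL.cases {q τ μ g u} (h : CorrL M q (τ ++ μ) g u) :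
    (∃ q' τ' g', M.Rs q τ g (Res.stay q' τ' g')) ∨ ∃ e k, M.Rs q τ g (Res.look e k) := by
  obtain ⟨w, hw⟩ := exists_accepted u h.1
  obtain ⟨res, hr⟩ := L_total ((h.2 w).2 hw)
  cases res with
  | stay q' τ' g' => exact Or.inl ⟨_, _, _, hr⟩
  | look e k => exact Or.inr ⟨_, _, hr⟩
  | acc =>
    obtain ⟨w', hw'⟩ := exists_rejected u h.1
    exact absurd ((h.2 w').1 ((hr.snd μ w').2 trivial)) hw'

theorem CorrL.stay {q τ μ g u q' τ' g'} (h : CorrL M q (τ ++ μ) g u)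
    (hr : M.Rs q τ g (Res.stay q' τ' g')) : Corr M q' (τ' ++ μ) g' u :=
  ⟨h.1, fun w => (hr.snd μ w).symm.trans (h.2 w)⟩

theorem CorrL.look {q τ μ g u e k} (h : CorrL M q (τ ++ μ) g u)
    (hr : M.Rs q τ g (Res.look e k)) : CorrL M e μ k u :=
  ⟨h.1, fun w => (hr.snd μ w).symm.trans (h.2 w)⟩

theorem Corr.ur {q τ μ g u v q' τ' g'} (h : Corr M q (τ ++ μ) g u)
    (hr : M.Ur q τ g v q' τ' g') : Corr M q' (τ' ++ μ) g' (vrun u v) :=
  ⟨vrun_ne_nil _ _ h.1, fun w => by rw [← hr.snd μ w, h.2, vrun_append]⟩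

theorem Corr.unique {q σ g u u'} (h : Corr M q σ g u) (h' : Corr M q σ g u') : u = u' :=
  eq_of_same_future _ _ h.1 h'.1 fun w => (h.2 w).symm.trans (h'.2 w)

theorem CorrL.unique {q σ g u u'} (h : CorrL M q σ g u) (h' : CorrL M q σ g u') : u = u' :=
  eq_of_same_future _ _ h.1 h'.1 fun w => (h.2 w).symm.trans (h'.2 w)

theorem CorrL.bot {q g u} (h : CorrL M q [] g u) : ∃ q', Corr M q' [] g u := by
  obtain ⟨w, hw⟩ := exists_accepted u h.1
  rcases bot_aux ((h.2 w).2 hw) rfl rfl with ⟨q', h'⟩ | h'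
  · exact ⟨q', h.1, fun w => (h' w).symm.trans (h.2 w)⟩
  · obtain ⟨w', hw'⟩ := exists_rejected u h.1
    exact absurd ((h.2 w').1 (h' w')) hw'

structure Ctx (κ K : Type) where
  cμ : ℕ → List (Cell (Letter κ) K)
  cu : ℕ → List κ
  inj : Function.Injective cu

structure Mem (κ Q K : Type) where
  q : Q
  τ : List (Cell (Letter κ) K)
  g : K
  μ : List (Cell (Letter κ) K)
  r : List κ
  e : ℕ
  W : List κ → ℝ

def Mem.Z (P : ℕ) (a : Mem κ Q K) : List κ × ℕ → Prop := Zone P a.r a.W a.e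

def Mem.flat (a : Mem κ Q K) : Mem κ Q K := ⟨a.q, [], a.g, a.τ ++ a.μ, a.r, a.e, a.W⟩

variable [Fintype κ]

structure Pre (M : MachC (Letter κ) Q K) (C : Ctx κ K) (a : Mem κ Q K) : Prop where
  two : 2 ≤ a.r.length
  sup : SuperH a.W
  lt : a.W a.r < 1
  corr : ∀ i, Corr M a.q (a.τ ++ (a.μ ++ C.cμ i)) a.g (a.r ++ C.cu i)

def Rch (M : MachC (Letter κ) Q K) (P : ℕ) (a : Mem κ Q K) (q1 : Q)
    (τ1 : List (Cell (Letter κ) K)) (g1 : K) (u : List κ) (e1 : ℕ) : Prop :=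
  ∃ v, InZ (a.Z P) (a.r, a.e) v ∧ M.Ur a.q a.τ a.g v q1 τ1 g1 ∧ prun (a.r, a.e) v = (u, e1)

def Ev (M : MachC (Letter κ) Q K) (P : ℕ) (a : Mem κ Q K) (γ : List κ) (e' len : ℕ) : Prop :=
  ∃ v y q1 τ1 g1 e k, InZ (a.Z P) (a.r, a.e) (v ++ [y]) ∧ M.Ur a.q a.τ a.g v q1 τ1 g1 ∧
    M.Rs q1 ((some y, g1) :: τ1) 0 (Res.look e k) ∧ prun (a.r, a.e) (v ++ [y]) = (γ, e') ∧
    len = v.length + 1

structure Good (M : MachC (Letter κ) Q K) (C : Ctx κ K) (P : ℕ) (a : Mem κ Q K) : Prop where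
  pre : Pre M C a
  safe : ∀ γ e' len, ¬ Ev M P a γ e' len

def Sep (M : MachC (Letter κ) Q K) (P : ℕ) (a a' : Mem κ Q K) : Prop :=
  ∀ q1 τ1 g1 u e1 u' e1', Rch M P a q1 τ1 g1 u e1 → Rch M P a' q1 τ1 g1 u' e1' →
    u.length ≠ u'.length

structure Adv (M : MachC (Letter κ) Q K) (P : ℕ) (a b : Mem κ Q K) : Prop where
  rch : Rch M P a b.q b.τ b.g b.r b.e
  hμ : b.μ = a.μ
  hW : b.W = a.W

variable {C : Ctx κ K} {P : ℕ}

theorem Pre.flat {a : Mem κ Q K} (h : Pre M C a) : Pre M C a.flat :=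
  ⟨h.two, h.sup, h.lt, fun i => by simpa [Mem.flat] using h.corr i⟩

omit [Fintype κ] in
theorem Rch.refl (a : Mem κ Q K) : Rch M P a a.q a.τ a.g a.r a.e :=
  ⟨[], trivial, Ur.nil _ _ _, rfl⟩

theorem Pre.root {a : Mem κ Q K} (h : Pre M C a) : a.Z P (a.r, a.e) := Zone.root P a.e h.lt

theorem Pre.two_le {a : Mem κ Q K} (h : Pre M C a) (s : List κ × ℕ) (hs : a.Z P s) :
    2 ≤ s.1.length := h.two.trans (Zone.length hs)

theorem Rch.zone {a : Mem κ Q K} (h : Pre M C a) {q1 τ1 g1 u e1}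
    (hr : Rch M P a q1 τ1 g1 u e1) : a.Z P (u, e1) := by
  obtain ⟨v, h1, -, h3⟩ := hr
  rw [← h3]
  exact h1.last h.root

theorem Pre.vrun_ctx {a : Mem κ Q K} (h : Pre M C a) {v u e1}
    (h1 : InZ (a.Z P) (a.r, a.e) v) (h3 : prun (a.r, a.e) v = (u, e1)) (c : List κ) :
    vrun (a.r ++ c) v = u ++ c := by
  have := h1.vrun_ctx h.two_le (s := (a.r, a.e)) h.two c
  rw [this, ← prun_fst, h3]

theorem Rch.corr {a : Mem κ Q K} (h : Pre M C a) {q1 τ1 g1 u e1}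
    (hr : Rch M P a q1 τ1 g1 u e1) (i : ℕ) :
    Corr M q1 (τ1 ++ (a.μ ++ C.cμ i)) g1 (u ++ C.cu i) := by
  obtain ⟨v, h1, h2, h3⟩ := hr
  rw [← h.vrun_ctx h1 h3]
  exact (h.corr i).ur h2

theorem Rch.inZ {a b : Mem κ Q K} (h : Pre M C a) (hr : Rch M P a b.q b.τ b.g b.r b.e)
    (hW : ∀ u, a.W u ≤ b.W u) {s v} (hv : InZ (b.Z P) s v) : InZ (a.Z P) s v :=
  hv.mono fun _ hs => Zone.trans (hr.zone h) hW hs

theorem Rch.trans {a b : Mem κ Q K} (h : Pre M C a) (hr : Rch M P a b.q b.τ b.g b.r b.e)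
    (hW : ∀ u, a.W u ≤ b.W u) {q1 τ1 g1 u e1} (hr' : Rch M P b q1 τ1 g1 u e1) :
    Rch M P a q1 τ1 g1 u e1 := by
  obtain ⟨v', h1', h2', h3'⟩ := hr'
  have h4 := hr.inZ h hW h1'
  obtain ⟨v, h1, h2, h3⟩ := hr
  exact ⟨v ++ v', (InZ_append ..).2 ⟨h1, h3 ▸ h4⟩, h2.append h2', by rw [prun_append, h3, h3']⟩

theorem Ev.trans {a b : Mem κ Q K} (h : Pre M C a) (hr : Rch M P a b.q b.τ b.g b.r b.e)
    (hW : ∀ u, a.W u ≤ b.W u) {γ e' len} (he : Ev M P b γ e' len) :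
    ∃ len', Ev M P a γ e' len' := by
  obtain ⟨v', y, q1, τ1, g1, e, k, h1', h2', hl, h3', -⟩ := he
  have h4 := hr.inZ h hW h1'
  obtain ⟨v, h1, h2, h3⟩ := hr
  refine ⟨_, v ++ v', y, q1, τ1, g1, e, k, ?_, h2.append h2', hl, ?_, rfl⟩
  · rw [List.append_assoc]; exact (InZ_append ..).2 ⟨h1, h3 ▸ h4⟩
  · rw [List.append_assoc, prun_append, h3, h3']

theorem Ev.zone {a : Mem κ Q K} (h : Pre M C a) {γ e' len} (he : Ev M P a γ e' len) :
    a.Z P (γ, e') := by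
  obtain ⟨v, y, q1, τ1, g1, e, k, h1, -, -, h3, -⟩ := he
  rw [← h3]
  exact h1.last h.root

theorem Pre.rch {a b : Mem κ Q K} (h : Pre M C a) (hr : Rch M P a b.q b.τ b.g b.r b.e)
    (hμ : b.μ = a.μ) (hs : SuperH b.W) (hl : b.W b.r < 1) : Pre M C b :=
  ⟨h.two_le _ (hr.zone h), hs, hl, fun i => hμ ▸ hr.corr h i⟩

theorem Good.adv {a b : Mem κ Q K} (h : Good M C P a) (hb : Adv M P a b) : Good M C P b := by
  refine ⟨h.pre.rch hb.rch hb.hμ (hb.hW ▸ h.pre.sup) (hb.hW ▸ (hb.rch.zone h.pre).1.lt_one),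
    fun γ e' len he => ?_⟩
  obtain ⟨len', he'⟩ := he.trans h.pre hb.rch fun u => by rw [hb.hW]
  exact h.safe _ _ _ he'

theorem Sep.adv {a b a' b' : Mem κ Q K} (hs : Sep M P a a') (h : Pre M C a) (h' : Pre M C a')
    (hb : Adv M P a b) (hb' : Adv M P a' b') : Sep M P b b' :=
  fun _ _ _ _ _ _ _ h1 h2 => hs _ _ _ _ _ _ _ (hb.rch.trans h (fun u => by rw [hb.hW]) h1)
    (hb'.rch.trans h' (fun u => by rw [hb'.hW]) h2)

omit [Fintype κ] in
theorem Rch.unflat {a : Mem κ Q K} {q1 τ1 g1 u e1} (h : Rch M P a.flat q1 τ1 g1 u e1) :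
    Rch M P a q1 (τ1 ++ a.τ) g1 u e1 := by
  obtain ⟨v, h1, h2, h3⟩ := h
  exact ⟨v, h1, h2.lift a.τ, h3⟩

/-- One more letter inside the zone: the machine stays, or an event happens. -/
theorem Rch.step {a : Mem κ Q K} (h : Pre M C a) {q1 τ1 g1 u e1}
    (hr : Rch M P a q1 τ1 g1 u e1) (y : Letter κ) (hy : a.Z P (pstep (u, e1) y)) :
    (∃ q2 τ2 g2, M.Rs q1 ((some y, g1) :: τ1) 0 (Res.stay q2 τ2 g2) ∧
      Rch M P a q2 τ2 g2 (pstep (u, e1) y).1 (pstep (u, e1) y).2) ∨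
    ∃ len, Ev M P a (pstep (u, e1) y).1 (pstep (u, e1) y).2 len := by
  have hc := (hr.corr h 0).read y
  obtain ⟨v, h1, h2, h3⟩ := hr
  have h4 : InZ (a.Z P) (a.r, a.e) (v ++ [y]) := (InZ_append ..).2 ⟨h1, h3 ▸ ⟨hy, trivial⟩⟩
  have h5 : prun (a.r, a.e) (v ++ [y]) = pstep (u, e1) y := by rw [prun_append, h3]; rfl
  rcases CorrL.cases (τ := (some y, g1) :: τ1) hc with ⟨q2, τ2, g2, hs⟩ | ⟨e, k, hs⟩
  · exact Or.inl ⟨q2, τ2, g2, hs, v ++ [y], h4, h2.append (Ur.single hs), h5⟩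
  · exact Or.inr ⟨_, v, y, q1, τ1, g1, e, k, h4, h2, hs, h5, rfl⟩

theorem run_exists {a : Mem κ Q K} (h : Good M C P a) (w : List (Letter κ)) {q1 τ1 g1 u e1}
    (hr : Rch M P a q1 τ1 g1 u e1) (hw : InZ (a.Z P) (u, e1) w) :
    ∃ q2 τ2 g2, M.Ur q1 τ1 g1 w q2 τ2 g2 := by
  induction w generalizing q1 τ1 g1 u e1 with
  | nil => exact ⟨_, _, _, Ur.nil _ _ _⟩
  | cons y w ih =>
    rcases hr.step h.pre y hw.1 with ⟨q2, τ2, g2, hs, hr2⟩ | ⟨len, he⟩
    · obtain ⟨q3, τ3, g3, h3⟩ := ih hr2 hw.2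
      exact ⟨q3, τ3, g3, Ur.cons hs h3⟩
    · exact absurd he (h.safe _ _ _)

theorem sep_same {a b b' : Mem κ Q K} (h : Good M C P a) (hb : Adv M P a b) (hb' : Adv M P a b')
    (hl : b.r.length = b'.r.length) (hne : b.r ≠ b'.r) : Sep M P b b' := by
  intro q1 τ1 g1 u e1 u' e1' h1 h2 _
  have c1 := (hb.rch.trans h.pre (fun u => by rw [hb.hW]) h1).corr h.pre 0
  have c2 := (hb'.rch.trans h.pre (fun u => by rw [hb'.hW]) h2).corr h.pre 0
  obtain rfl : u = u' := List.append_cancel_right (c1.unique c2)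
  have s1 := (h1.zone (h.adv hb).pre).1.suffix
  have s2 := (h2.zone (h.adv hb').pre).1.suffix
  exact hne ((List.suffix_of_suffix_length_le s1 s2 hl.le).eq_of_length hl)

theorem Ev.corr {a : Mem κ Q K} (h : Pre M C a) {v y q1 τ1 g1 e k γ e'}
    (h1 : InZ (a.Z P) (a.r, a.e) (v ++ [y])) (h2 : M.Ur a.q a.τ a.g v q1 τ1 g1)
    (h3 : M.Rs q1 ((some y, g1) :: τ1) 0 (Res.look e k))
    (h4 : prun (a.r, a.e) (v ++ [y]) = (γ, e')) (i : ℕ) :
    CorrL M e (a.μ ++ C.cμ i) k (γ ++ C.cu i) := by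
  have c1 := ((h.corr i).ur h2).read y
  have : vstep (vrun (a.r ++ C.cu i) v) y = γ ++ C.cu i := by
    rw [← h.vrun_ctx h1 h4, vrun_append]; rfl
  rw [this] at c1
  exact CorrL.look (τ := (some y, g1) :: τ1) c1 h3

theorem ev_finite [Finite Q] [Finite K] {a : Mem κ Q K} (h : Pre M C a) :
    {γ | ∃ e' len, Ev M P a γ e' len}.Finite := by
  have : {γ | ∃ e' len, Ev M P a γ e' len} ⊆
      ⋃ p : Q × K, {γ | CorrL M p.1 (a.μ ++ C.cμ 0) p.2 (γ ++ C.cu 0)} := by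
    rintro γ ⟨e', len, v, y, q1, τ1, g1, e, k, h1, h2, h3, h4, -⟩
    exact Set.mem_iUnion.2 ⟨(e, k), Ev.corr h h1 h2 h3 h4 0⟩
  refine Set.Finite.subset (Set.finite_iUnion fun p => Set.Subsingleton.finite ?_) this
  intro γ hγ γ' hγ'
  exact List.append_cancel_right (CorrL.unique hγ hγ')

theorem ev_next {a : Mem κ Q K} (h : Good M C P a) {γ e' len} (he : Ev M P a.flat γ e' len) :
    ∃ b, Adv M P a b ∧ b.r = γ ∧ b.e = e' ∧ ∀ X E j0 b0, M.ShAt X E j0 b0 a.τ a.g →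
      ∃ j b', M.ShAt X (E + len • M.one) j b' b.τ b.g := by
  obtain ⟨v, y, q1, τ1, g1, e, k, h1, h2, h3, h4, rfl⟩ := he
  have hc := Ev.corr h.pre.flat h1 h2 h3 h4 0
  have hc' : CorrL M e (a.τ ++ (a.μ ++ C.cμ 0)) k (γ ++ C.cu 0) := by
    simpa [Mem.flat] using hc
  have h2' : M.Ur a.q a.τ a.g v q1 (τ1 ++ a.τ) g1 := h2.lift a.τ
  rcases hc'.cases with ⟨q2, τ2, g2, hs⟩ | ⟨e2, k2, hs⟩
  · refine ⟨⟨q2, τ2, g2, a.μ, γ, e', a.W⟩,
      ⟨⟨v ++ [y], h1, h2'.append (Ur.single (h3.look_append rfl hs)), h4⟩, rfl, rfl⟩, rfl, rfl,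
      fun X E j0 b0 hX => ?_⟩
    have hk : k = a.g + (v.length + 1) • M.one := by
      have m1 := h2.mass_eq.1
      rw [h3.look_mass]
      simp only [mass, Mem.flat, zero_add] at m1 ⊢
      rw [add_nsmul, one_nsmul, ← add_assoc, ← m1]
      abel
    exact hs.shape rfl (hk ▸ hX.add _)
  · exact absurd ⟨v, y, q1, τ1 ++ a.τ, g1, e2, k2, h1, h2', h3.look_append rfl hs, h4, rfl⟩
      (h.safe _ _ _)

/-- Moving the upper cells to the base. -/
theorem good_of_flat {a b : Mem κ Q K} (h : Pre M C a) (hr : Rch M P a b.q b.τ b.g b.r b.e)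
    (hμ : b.μ = a.μ) (hs : SuperH b.W) (hl : b.W b.r < 1) (hW : ∀ u, a.W u ≤ b.W u)
    (hΓ : ∀ γ e' len, Ev M P a γ e' len → ¬ Zn b.r b.W γ) : Good M C P b := by
  have hb := h.rch hr hμ hs hl
  refine ⟨hb, fun γ e' len he => ?_⟩
  obtain ⟨len', he'⟩ := he.trans h hr hW
  exact hΓ _ _ _ he' (he.zone hb).1

theorem sep_diff [Finite Q] [Finite K] (hn : 18 ≤ Fintype.card κ) (hP : 1 ≤ P)
    {b b' : Mem κ Q K} (hb : Pre M C b) (hb' : Good M C P b') {y x y' x' : κ} {r1 r2 : List κ}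
    (e1 : b.r = y :: x :: r1) (e2 : b'.r = y' :: x' :: r2) (h2 : 2 ≤ r1.length)
    (hl : r1.length = r2.length) (hx : x ≠ x') : Sep M P b b' := by
  intro q1 τ1 g1 u e u' e' h1 h1' hlen
  have z := h1.zone hb
  have z' := h1'.zone hb'.pre
  obtain ⟨α, rfl⟩ := z.1.suffix
  obtain ⟨α', hα'⟩ := z'.1.suffix
  simp only at hα'
  obtain ⟨η, w0, s1, s2, s3⟩ := steer_sync hb'.pre.sup hn (P - e' % P) u' e' z'
  have z2 : b'.Z P (η ++ u', e' + (P - e' % P)) := s2 ▸ s1.last z'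
  have hmod : (e' + (P - e' % P)) % P = 0 := by
    have h3 := Nat.mod_lt e' hP
    have h4 := Nat.div_add_mod e' P
    have : e' + (P - e' % P) = P * (e' / P + 1) := by rw [mul_add]; omega
    rw [this, Nat.mul_mod_right]
  obtain ⟨t, ρ, ht⟩ : ∃ t ρ, η ++ α ++ [y] = t :: ρ := List.exists_cons_of_ne_nil (by simp)
  obtain ⟨t', ρ', ht'⟩ : ∃ t ρ, η ++ α' ++ [y'] = t :: ρ := List.exists_cons_of_ne_nil (by simp)
  have f1 : η ++ (α ++ b.r) = t :: (ρ ++ x :: r1) := by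
    rw [e1, ← List.cons_append, ← ht]; simp
  have f2 : η ++ u' = t' :: (ρ' ++ x' :: r2) := by
    rw [← hα', e2, ← List.cons_append, ← ht']; simp
  have hρ : ρ.length = ρ'.length := by
    have l1 := congrArg List.length f1
    have l2 := congrArg List.length f2
    simp only [List.length_append, List.length_cons] at l1 l2 hlen
    omega
  rw [f2] at z2 s2
  obtain ⟨w, a, a1, a2, T, b0, b1, rest, e'', p1, p2, p3, p4, p5, p6⟩ :=
    steer_down hb'.pre.sup hn x x' hx r1 r2 h2 (by rw [e2]; simp) _ hmod ρ ρ' hρ t t' z2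
  have key : ∀ i, ∃ (wi : List (Letter κ)) (out : Option (Q × K)),
      wi.map Prod.fst = (a1 :: a2 :: T ++ C.cu i).map some ∧
      ∀ j, M.interpEnd (b.μ ++ C.cμ j) out ↔
        (vrun (a :: a1 :: a2 :: T ++ C.cu j) wi).length = 1 := by
    intro i
    obtain ⟨wi, hw1, hw2⟩ := steer_up hb'.pre.sup hn (a1 :: a2 :: T ++ C.cu i) b0 b1 rest e'' p3
      (by simpa using p5) (by simpa using p6)
    have hz : InZ (b'.Z P) (u', e') (w0 ++ (w ++ wi)) :=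
      (InZ_append ..).2 ⟨s1, s2 ▸ (InZ_append ..).2 ⟨p1, p2 ▸ hw2⟩⟩
    obtain ⟨q2, τ2, g2, hu⟩ := run_exists hb' _ h1' hz
    have hc : ∀ j, M.F q2 (τ2 ++ (b.μ ++ C.cμ j)) g2 [] ↔
        (vrun (a :: a1 :: a2 :: T ++ C.cu j) wi).length = 1 := by
      intro j
      have := ((h1.corr hb j).ur hu).2 []
      rw [vrun_nil, vrun_append, s3, ← List.append_assoc η, f1, vrun_append, p4] at this
      exact this
    obtain ⟨out, ho⟩ := F_total ((hc i).2 (geo_run _ _ _ hw1))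
    exact ⟨wi, out, hw1, fun j => (ho.snd _).symm.trans (hc j)⟩
  choose wi out hw1 hw2 using key
  have main : ∀ i j, out i = out j → (C.cu j).length ≤ (C.cu i).length → i = j := by
    intro i j ho hij
    have a1' := (hw2 i i).2 (geo_run _ _ _ (hw1 i))
    rw [ho] at a1'
    have a2' := geo_unique _ _ ((hw2 j i).1 a1') (by
      have := congrArg List.length (hw1 j)
      simp only [List.length_map, List.length_append, List.length_cons] at this ⊢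
      omega)
    rw [hw1 j] at a2'
    have a3 := List.map_injective_iff.2 (Option.some_injective _) a2'
    simp only [List.cons_append, List.tail_cons, List.cons.injEq, true_and,
      List.append_cancel_left_eq] at a3
    exact (C.inj a3).symm
  obtain ⟨i, j, hne, ho⟩ := Finite.exists_ne_map_eq_of_infinite out
  rcases le_total (C.cu j).length (C.cu i).length with hij | hij
  · exact hne (main i j ho hij)
  · exact hne (main j i ho.symm hij).symm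

end Pool.Agent.P.MP_47d067_lc
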