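import Mathlib

/-!
Walks of the head in a block of blanks, and the finite congruence on block lengths.
-/

set_option autoImplicit false

namespace Pool.Agent.P.MP_47d067_lc

/-- `none`: acceptance; `some (d, s)`: the head leaves the block on side `d` in state `s`. -/
abbrev GOut (S : Type) := Option (Bool × S)

variable {S : Type}

/-- The head moves in direction `d` (`true` is right) from a boundary with `l` blanks on its
left and `r` blanks on its right. -/
inductive Mv (F : Set S) (B : S → S → Bool → Prop) : Bool → ℕ → ℕ → S → GOut S → Prop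
  | exitR (l s) : Mv F B true l 0 s (some (true, s))
  | exitL (r s) : Mv F B false 0 r s (some (false, s))
  | accR (l r s) : s ∈ F → Mv F B true l (r + 1) s none
  | accL (l r s) : s ∈ F → Mv F B false (l + 1) r s none
  | goRR {l r s s' o} : s ∉ F → B s s' true → Mv F B true (l + 1) r s' o →
      Mv F B true l (r + 1) s o
  | goRL {l r s s' o} : s ∉ F → B s s' false → Mv F B false l (r + 1) s' o →
      Mv F B true l (r + 1) s o
  | goLR {l r s s' o} : s ∉ F → B s s' true → Mv F B true (l + 1) r s' o →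
      Mv F B false (l + 1) r s o
  | goLL {l r s s' o} : s ∉ F → B s s' false → Mv F B false l (r + 1) s' o →
      Mv F B false (l + 1) r s o

variable {F : Set S} {B : S → S → Bool → Prop}

def flipOut : GOut S → GOut S
  | none => none
  | some (d, s) => some (!d, s)

theorem flipOut_flipOut (o : GOut S) : flipOut (flipOut o) = o := by
  rcases o with _ | ⟨d, s⟩ <;> simp [flipOut]

theorem Mv.mirror {B' : S → S → Bool → Prop} (hB : ∀ s s' d, B s s' d → B' s s' (!d))
    {d l r s o} (h : Mv F B d l r s o) : Mv F B' (!d) r l s (flipOut o) := by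
  induction h with
  | exitR l s => exact Mv.exitL _ _
  | exitL r s => exact Mv.exitR _ _
  | accR l r s h => exact Mv.accL _ _ _ h
  | accL l r s h => exact Mv.accR _ _ _ h
  | goRR h1 h2 _ ih => exact Mv.goLL h1 (hB _ _ _ h2) ih
  | goRL h1 h2 _ ih => exact Mv.goLR h1 (hB _ _ _ h2) ih
  | goLR h1 h2 _ ih => exact Mv.goRL h1 (hB _ _ _ h2) ih
  | goLL h1 h2 _ ih => exact Mv.goRR h1 (hB _ _ _ h2) ih

def Cont (F : Set S) (B : S → S → Bool → Prop) (m a : ℕ) (o' o : GOut S) : Prop :=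
  (o' = o ∧ ∀ s', o' ≠ some (true, s')) ∨ ∃ s', o' = some (true, s') ∧ Mv F B true m a s' o

theorem Mv.glue {d l r s o'} (h : Mv F B d l r s o') {m a o} (hm : m = l + r)
    (hc : Cont F B m a o' o) : Mv F B d l (r + a) s o := by
  induction h with
  | exitR l s =>
    rcases hc with ⟨-, h⟩ | ⟨s', h1, h2⟩
    · exact absurd rfl (h s)
    · cases h1
      rw [zero_add]
      subst hm
      exact h2
  | exitL r s =>
    rcases hc with ⟨rfl, -⟩ | ⟨s', h1, -⟩
    · exact Mv.exitL _ _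
    · cases h1
  | accR l r s h =>
    rcases hc with ⟨rfl, -⟩ | ⟨s', h1, -⟩
    · rw [Nat.add_right_comm]; exact Mv.accR _ _ _ h
    · cases h1
  | accL l r s h =>
    rcases hc with ⟨rfl, -⟩ | ⟨s', h1, -⟩
    · exact Mv.accL _ _ _ h
    · cases h1
  | goRR h1 h2 _ ih => rw [Nat.add_right_comm]; exact Mv.goRR h1 h2 (ih (by omega) hc)
  | goRL h1 h2 _ ih =>
    have := ih hm hc
    rw [Nat.add_right_comm] at this ⊢
    exact Mv.goRL h1 h2 this
  | goLR h1 h2 _ ih => exact Mv.goLR h1 h2 (ih hm hc)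
  | goLL h1 h2 _ ih =>
    have := ih (by omega) hc
    rw [Nat.add_right_comm] at this
    exact Mv.goLL h1 h2 this

theorem Mv.subst {n m : ℕ} (hT : ∀ s o, Mv F B false n 0 s o → Mv F B false m 0 s o)
    {d l r s o} (h : Mv F B d l r s o) :
    (∀ r0 a, l + r0 = n → r = r0 + a → ∃ o', Mv F B d l r0 s o' ∧ Cont F B m a o' o) ∧
      ∀ c, l = n + c → Mv F B d (m + c) r s o := by
  have QP : ∀ {l r s o}, (∀ c, l = n + c → Mv F B true (m + c) r s o) →
      (∀ r0 a, l + (r0 + 1) = n → r = r0 + a + 1 →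
        ∃ o', Mv F B true l (r0 + 1) s o' ∧ Cont F B m a o' o) →
      (∀ r0 a, l + r0 = n → r = r0 + a → ∃ o', Mv F B true l r0 s o' ∧ Cont F B m a o' o) ∧
        ∀ c, l = n + c → Mv F B true (m + c) r s o := by
    intro l r s o h1 h2
    refine ⟨fun r0 a e1 e2 => ?_, h1⟩
    cases r0 with
    | zero =>
      obtain rfl : r = a := by omega
      exact ⟨_, Mv.exitR _ _, Or.inr ⟨s, rfl, h1 0 (by omega)⟩⟩
    | succ r0 => exact h2 r0 a e1 (by omega)
  have PQ : ∀ {l r s o},
      (∀ r0 a, l + r0 = n → r = r0 + a → ∃ o', Mv F B false l r0 s o' ∧ Cont F B m a o' o) →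
      (∀ c, l = n + c + 1 → Mv F B false (m + c + 1) r s o) →
      (∀ r0 a, l + r0 = n → r = r0 + a → ∃ o', Mv F B false l r0 s o' ∧ Cont F B m a o' o) ∧
        ∀ c, l = n + c → Mv F B false (m + c) r s o := by
    intro l r s o h1 h2
    refine ⟨h1, fun c e1 => ?_⟩
    cases c with
    | zero =>
      obtain rfl : l = n := by omega
      obtain ⟨o', h3, h4⟩ := h1 0 r rfl (by omega)
      have := (hT _ _ h3).glue rfl h4
      rwa [zero_add] at this
    | succ c => exact h2 c e1
  induction h with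
  | exitR l s => exact QP (fun c _ => Mv.exitR _ _) fun r0 a _ e => by omega
  | exitL r s =>
    exact PQ (fun r0 a _ _ => ⟨_, Mv.exitL _ _, Or.inl ⟨rfl, fun _ h => by cases h⟩⟩)
      fun c e => by omega
  | accR l r s h =>
    exact QP (fun c _ => Mv.accR _ _ _ h)
      fun r0 a _ _ => ⟨_, Mv.accR _ _ _ h, Or.inl ⟨rfl, fun _ h => by cases h⟩⟩
  | accL l r s h =>
    exact PQ (fun r0 a _ _ => ⟨_, Mv.accL _ _ _ h, Or.inl ⟨rfl, fun _ h => by cases h⟩⟩)
      fun c _ => Mv.accL _ _ _ h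
  | goRR h1 h2 _ ih =>
    refine QP (fun c e => Mv.goRR h1 h2 (ih.2 (c + 1) (by omega))) fun r0 a e1 e2 => ?_
    obtain ⟨o', h3, h4⟩ := ih.1 r0 a (by omega) (by omega)
    exact ⟨o', Mv.goRR h1 h2 h3, h4⟩
  | goRL h1 h2 _ ih =>
    refine QP (fun c e => Mv.goRL h1 h2 (ih.2 c e)) fun r0 a e1 e2 => ?_
    obtain ⟨o', h3, h4⟩ := ih.1 (r0 + 1) a e1 (by omega)
    exact ⟨o', Mv.goRL h1 h2 h3, h4⟩
  | goLR h1 h2 _ ih =>
    refine PQ (fun r0 a e1 e2 => ?_) fun c e => Mv.goLR h1 h2 (ih.2 (c + 1) e)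
    obtain ⟨o', h3, h4⟩ := ih.1 r0 a e1 e2
    exact ⟨o', Mv.goLR h1 h2 h3, h4⟩
  | goLL h1 h2 _ ih =>
    refine PQ (fun r0 a e1 e2 => ?_) fun c e => Mv.goLL h1 h2 (ih.2 c (by omega))
    obtain ⟨o', h3, h4⟩ := ih.1 (r0 + 1) a (by omega) (by omega)
    exact ⟨o', Mv.goLL h1 h2 h3, h4⟩

theorem Mv.subst_right {n m : ℕ} (hT : ∀ s o, Mv F B true 0 n s o → Mv F B true 0 m s o)
    {d l c s o} (h : Mv F B d l (n + c) s o) : Mv F B d l (m + c) s o := by
  have hB : ∀ s s' d, B s s' d → (fun s s' d => B s s' (!d)) s s' (!d) :=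
    fun s s' d h => by simpa using h
  have hB' : ∀ s s' d, (fun s s' d => B s s' (!d)) s s' d → B s s' (!d) := fun s s' d h => h
  have := ((Mv.subst (n := n) (m := m) (fun s o h =>
    flipOut_flipOut o ▸ (hT _ _ (h.mirror hB')).mirror hB) (h.mirror hB)).2 c rfl).mirror hB'
  rwa [Bool.not_not, flipOut_flipOut] at this

/-- Block lengths that behave alike at either end of every longer block. -/
def gapCon (F : Set S) (B : S → S → Bool → Prop) : AddCon ℕ where
  r n m := ∀ c d a s o, (Mv F B d (n + c) a s o ↔ Mv F B d (m + c) a s o) ∧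
    (Mv F B d a (n + c) s o ↔ Mv F B d a (m + c) s o)
  iseqv := ⟨fun _ _ _ _ _ _ => ⟨Iff.rfl, Iff.rfl⟩,
    fun h c d a s o => ⟨(h c d a s o).1.symm, (h c d a s o).2.symm⟩,
    fun h h' c d a s o => ⟨(h c d a s o).1.trans (h' c d a s o).1,
      (h c d a s o).2.trans (h' c d a s o).2⟩⟩
  add' := fun {w x y z} h h' c d a s o => by
    have h1 := h (y + c) d a s o
    have h2 := h' (x + c) d a s o
    rw [show y + (x + c) = x + (y + c) by ring, show z + (x + c) = x + z + c by ring] at h2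
    rw [add_assoc w]
    exact ⟨h1.1.trans h2.1, h1.2.trans h2.2⟩

theorem gapCon_finite [Finite S] : Finite (gapCon F B).Quotient := by
  obtain ⟨n, m, hlt, h⟩ : ∃ n m, n < m ∧ gapCon F B n m := by
    obtain ⟨n, m, hne, h⟩ := Finite.exists_ne_map_eq_of_infinite
      fun n : ℕ => (Mv F B false n 0, Mv F B true 0 n)
    obtain ⟨h1, h2⟩ := Prod.mk.inj h
    have key : gapCon F B n m := fun c d a s o =>
      ⟨⟨fun h => (h.subst fun s o h => h1 ▸ h).2 c rfl,
        fun h => (h.subst fun s o h => h1 ▸ h).2 c rfl⟩,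
       ⟨fun h => h.subst_right fun s o h => h2 ▸ h, fun h => h.subst_right fun s o h => h2 ▸ h⟩⟩
    rcases lt_or_gt_of_ne hne with hl | hl
    · exact ⟨n, m, hl, key⟩
    · exact ⟨m, n, hl, (gapCon F B).symm key⟩
  have key : ∀ x, ∃ y : Fin m, gapCon F B (y : ℕ) x := by
    intro x
    induction x using Nat.strong_induction_on with
    | _ x ih =>
      by_cases hx : x < m
      · exact ⟨⟨x, hx⟩, (gapCon F B).refl x⟩
      · obtain ⟨c, rfl⟩ := Nat.exists_eq_add_of_le (not_lt.1 hx)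
        obtain ⟨y, hy⟩ := ih (n + c) (by omega)
        exact ⟨y, (gapCon F B).trans hy ((gapCon F B).add h ((gapCon F B).refl c))⟩
  refine Finite.of_surjective (fun y : Fin m => ((y : ℕ) : (gapCon F B).Quotient)) fun q => ?_
  induction q using AddCon.induction_on with
  | H x =>
    obtain ⟨y, hy⟩ := key x
    exact ⟨y, (gapCon F B).eq.2 hy⟩

/-- The walk relation on classes of block lengths. -/
def MvK (F : Set S) (B : S → S → Bool → Prop) (d : Bool) (k g : (gapCon F B).Quotient) (s : S)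
    (o : GOut S) : Prop :=
  ∃ l r : ℕ, (l : (gapCon F B).Quotient) = k ∧ (r : (gapCon F B).Quotient) = g ∧ Mv F B d l r s o

theorem mvK_iff (d : Bool) (l r : ℕ) (s : S) (o : GOut S) :
    MvK F B d (l : (gapCon F B).Quotient) (r : (gapCon F B).Quotient) s o ↔ Mv F B d l r s o := by
  constructor
  · rintro ⟨l', r', h1, h2, h⟩
    exact ((gapCon F B).eq.1 h2 0 d l s o).2.1 (((gapCon F B).eq.1 h1 0 d r' s o).1.1 h)
  · exact fun h => ⟨l, r, rfl, rfl, h⟩

end Pool.Agent.P.MP_47d067_lc
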