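import Pool.Agent.P.MP_47d067_lc.Step

/-!
The first family, and the conclusion: no finite stack machine follows the virtual stack.
-/

set_option autoImplicit false

namespace Pool.Agent.P.MP_47d067_lc

open Finset MachC

variable {κ Q K : Type} [DecidableEq κ] [AddCommMonoid K] {M : MachC (Letter κ) Q K}

theorem vrun_ray (k : κ) (n : ℕ) (u : List κ) :
    vrun u (List.replicate n (none, k)) = List.replicate n k ++ u := by
  induction n generalizing u with
  | zero => rfl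
  | succ n ih =>
    rw [List.replicate_succ, vrun_cons, vstep_push, ih, List.replicate_succ']
    simp

theorem CorrL.settle {q σ g u} (h : CorrL M q σ g u) :
    ∃ q' σ' g', Corr M q' σ' g' u ∧ σ'.length ≤ σ.length := by
  have h' : CorrL M q (σ ++ []) g u := by simpa using h
  rcases h'.cases with ⟨q', σ', g', hs⟩ | ⟨e, k, hs⟩
  · exact ⟨q', σ' ++ [], g', h'.stay hs, by simpa using hs.stay_length⟩
  · obtain ⟨q', hq⟩ := (h'.look hs).bot
    exact ⟨q', [], k, hq, by simp⟩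

def Tall (M : MachC (Letter κ) Q K) (k : κ) (q : Q) (g : K) : Prop :=
  ∀ n, ∃ q1 τ1 g1, M.Ur q [] g (List.replicate n (none, k)) q1 τ1 g1

theorem not_tall {k : κ} {q σ g u} (h : Corr M q σ g u) (ht : ¬ Tall M k q g) :
    ∃ n q' σ' g', Corr M q' σ' g' (List.replicate (n + 1) k ++ u) ∧ σ'.length ≤ σ.length := by
  by_contra hc
  refine ht fun n => ?_
  induction n with
  | zero => exact ⟨_, _, _, Ur.nil _ _ _⟩
  | succ n ih =>
    obtain ⟨q1, τ1, g1, h1⟩ := ih
    have h2 := (Corr.ur (τ := []) h h1).read (none, k)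
    rw [vrun_ray, vstep_push] at h2
    rcases CorrL.cases (τ := (some (none, k), g1) :: τ1) h2 with ⟨q2, τ2, g2, hs⟩ | ⟨e, k1, hs⟩
    · exact ⟨q2, τ2, g2, by rw [List.replicate_succ']; exact h1.append (Ur.single hs)⟩
    · exact absurd ⟨n, (CorrL.look (τ := (some (none, k), g1) :: τ1) h2 hs).settle⟩ hc

theorem corr_ray (k : κ) {q σ g u} (h : Corr M q σ g u) (t : ℕ) :
    ∃ q' σ' g', Corr M q' σ' g' (List.replicate t k ++ u) := by
  induction t with
  | zero => exact ⟨q, σ, g, h⟩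
  | succ t ih =>
    obtain ⟨q1, σ1, g1, h1⟩ := ih
    have h2 := h1.read (none, k)
    rw [vstep_push] at h2
    obtain ⟨q', σ', g', h3, -⟩ := h2.settle
    exact ⟨q', σ', g', h3⟩

theorem tall_often [Finite κ] [Finite Q] [Finite K] (k : κ) {q σ g u} (h : Corr M q σ g u)
    (T : ℕ) : ∃ t, T ≤ t ∧ ∃ q' σ' g', Corr M q' σ' g' (List.replicate t k ++ u) ∧
      Tall M k q' g' := by
  by_contra hc
  push Not at hc
  obtain ⟨q0, σ0, g0, h0⟩ := corr_ray k h T
  have key : ∀ n, ∃ t, T + n ≤ t ∧ ∃ q' σ' g', Corr M q' σ' g' (List.replicate t k ++ u) ∧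
      σ'.length ≤ σ0.length := by
    intro n
    induction n with
    | zero => exact ⟨T, le_rfl, q0, σ0, g0, h0, le_rfl⟩
    | succ n ih =>
      obtain ⟨t, ht, q1, σ1, g1, h1, l1⟩ := ih
      obtain ⟨m, q2, σ2, g2, h2, l2⟩ := not_tall h1 (hc t (by omega) q1 σ1 g1 h1)
      rw [← List.append_assoc, ← List.replicate_add] at h2
      exact ⟨m + 1 + t, by omega, q2, σ2, g2, h2, l2.trans l1⟩
  have hfin : {t : ℕ | ∃ q' σ' g', Corr M q' σ' g' (List.replicate t k ++ u) ∧
      σ'.length ≤ σ0.length}.Finite := by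
    have : {t : ℕ | ∃ q' σ' g', Corr M q' σ' g' (List.replicate t k ++ u) ∧
        σ'.length ≤ σ0.length} ⊆ ⋃ σ' ∈ {l : List (Cell (Letter κ) K) | l.length ≤ σ0.length},
          ⋃ p : Q × K, {t : ℕ | Corr M p.1 σ' p.2 (List.replicate t k ++ u)} := by
      rintro t ⟨q', σ', g', h1, h2⟩
      exact Set.mem_biUnion h2 (Set.mem_iUnion.2 ⟨(q', g'), h1⟩)
    refine Set.Finite.subset (Set.Finite.biUnion (List.finite_length_le _ _) fun σ' _ =>
      Set.finite_iUnion fun p => Set.Subsingleton.finite ?_) this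
    intro t ht t' ht'
    simpa using congrArg List.length (Corr.unique ht ht')
  obtain ⟨B, hB⟩ := hfin.bddAbove
  obtain ⟨t, ht, h1⟩ := key (B + 1)
  have := hB h1
  omega

theorem ray_zone {P : ℕ} {r : List κ} {e0 : ℕ} (k : κ) (n : ℕ) (u : List κ) (e : ℕ)
    (h : Zone P r (fun _ => 0) e0 (u, e)) :
    InZ (Zone P r (fun _ => 0) e0) (u, e) (List.replicate n (none, k)) ∧
      prun (u, e) (List.replicate n (none, k)) = (List.replicate n k ++ u, e + n) := by
  induction n generalizing u e with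
  | zero => exact ⟨trivial, rfl⟩
  | succ n ih =>
    have h1 : Zone P r (fun _ => 0) e0 (k :: u, e + 1) := h.push zero_lt_one
    obtain ⟨h2, h3⟩ := ih _ _ h1
    rw [List.replicate_succ, InZ, prun_cons, pstep_push, h3, List.replicate_succ']
    exact ⟨⟨h1, h2⟩, by simp; omega⟩

theorem no_machine [Fintype κ] [Finite Q] [Finite K] (hn : 262176 ≤ Fintype.card κ)
    {q σ g u} (h : Corr M q σ g u) : False := by
  obtain ⟨P, hP, hper⟩ := exists_period M.one
  obtain ⟨k⟩ : Nonempty κ := Fintype.card_pos_iff.1 (by omega)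
  obtain ⟨p, hp⟩ : ∃ p : Q × K, {t : ℕ | Tall M k p.1 p.2 ∧
      ∃ σ', Corr M p.1 σ' p.2 ([k, k] ++ (List.replicate t k ++ u))}.Infinite := by
    by_contra hc
    push Not at hc
    obtain ⟨B, hB⟩ := (Set.finite_iUnion hc).bddAbove
    obtain ⟨t, ht, q', σ', g', h1, h2⟩ := tall_often k h (B + 3)
    obtain ⟨t, rfl⟩ : ∃ s, t = s + 2 := ⟨t - 2, by omega⟩
    have : t ≤ B := hB (Set.mem_iUnion.2 ⟨(q', g'), (show _ ∧ _ from ⟨h2, σ', h1⟩)⟩)
    omega
  let f := hp.natEmbedding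
  choose cμ hμ using fun i => (f i).2.2
  let C : Ctx κ K := ⟨cμ, fun i => List.replicate (f i).1 k ++ u, fun i j hij =>
    f.injective (Subtype.ext (by simpa using congrArg List.length hij))⟩
  have hW : SuperH fun _ : List κ => (0 : ℝ) := ⟨fun _ => le_rfl, fun _ => by simp⟩
  let a : Mem κ Q K := ⟨p.1, [], p.2, [], [k, k], 0, fun _ => 0⟩
  have ha : Pre M C a := ⟨le_rfl, hW, zero_lt_one, hμ⟩
  obtain ⟨B, hB⟩ := ((ev_finite (P := P) ha).image List.length).bddAbove
  obtain ⟨q1, τ1, g1, h1⟩ := (f 0).2.1 B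
  obtain ⟨z1, z2⟩ := ray_zone k B _ _ (ha.root (P := P))
  let b : Mem κ Q K := ⟨q1, τ1, g1, [], List.replicate B k ++ [k, k], 0 + B, fun _ => 0⟩
  have hb : Good M C P b := good_of_flat ha ⟨_, z1, h1, z2⟩ rfl hW zero_lt_one
    (fun _ => le_rfl) fun γ e' len he hz => by
      have t1 := hB ⟨γ, ⟨e', len, he⟩, rfl⟩
      have t2 := hz.suffix.length_le
      simp [b] at t2
      omega
  exact no_fam hn hP hper ⟨Unit, univ, fun _ => b, τ1, g1, _, _, rfl, rfl,
    fun _ _ => ⟨hb, rfl, rfl, rfl, rfl⟩, fun _ _ _ _ hne => absurd rfl hne⟩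

end Pool.Agent.P.MP_47d067_lc
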