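import Mathlib

/-!
An abstract stack machine that covers both kinds of forgetting automata with right moves.
A cell holds an input letter or a blank, together with the class of the gap below it.
-/

set_option autoImplicit false

namespace Pool.Agent.P.MP_47d067_lc

inductive Act (Q : Type)
  | keep (q : Q) | blank (q : Q) | popRet (q : Q) | popLook (q : Q) | again (q : Q) | acc | rej

inductive EndAct (Q : Type)
  | go (q : Q) | again (q : Q) | acc | rej

structure MachC (A Q K : Type) where
  one : K
  act : Q → Option A → K → K → Act Q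
  bot : Q → K → EndAct Q
  fin : Q → K → EndAct Q

abbrev Cell (A K : Type) := Option A × K

structure Conf (A Q K : Type) where
  look : Bool
  q : Q
  cells : List (Cell A K)
  gap : K
  w : List A

inductive Out (A Q K : Type)
  | acc | rej | to (c : Conf A Q K)

inductive Res (A Q K : Type)
  | stay (q : Q) (cells : List (Cell A K)) (g : K) | look (q : Q) (g : K) | acc

variable {A Q K : Type} [AddCommMonoid K]

def MachC.next (M : MachC A Q K) : Conf A Q K → Out A Q K
  | ⟨false, q, cells, g, x :: w⟩ => Out.to ⟨true, q, (some x, g) :: cells, 0, w⟩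
  | ⟨false, q, cells, g, []⟩ =>
    match M.fin q g with
    | EndAct.go q' => Out.to ⟨true, q', cells, g, []⟩
    | EndAct.again q' => Out.to ⟨false, q', cells, g, []⟩
    | EndAct.acc => Out.acc
    | EndAct.rej => Out.rej
  | ⟨true, q, [], g, w⟩ =>
    match M.bot q g with
    | EndAct.go q' => Out.to ⟨false, q', [], g, w⟩
    | EndAct.again q' => Out.to ⟨true, q', [], g, w⟩
    | EndAct.acc => Out.acc
    | EndAct.rej => Out.rej
  | ⟨true, q, (c, k) :: r, g, w⟩ =>
    match M.act q c k g with
    | Act.keep q' => Out.to ⟨false, q', (c, k) :: r, g, w⟩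
    | Act.blank q' => Out.to ⟨false, q', (none, k) :: r, g, w⟩
    | Act.popRet q' => Out.to ⟨false, q', r, g + M.one + k, w⟩
    | Act.popLook q' => Out.to ⟨true, q', r, g + M.one + k, w⟩
    | Act.again q' => Out.to ⟨true, q', (c, k) :: r, g, w⟩
    | Act.acc => Out.acc
    | Act.rej => Out.rej

inductive MachC.Acc (M : MachC A Q K) : Conf A Q K → Prop
  | now (c : Conf A Q K) : M.next c = Out.acc → MachC.Acc M c
  | later (c c' : Conf A Q K) : M.next c = Out.to c' → MachC.Acc M c' → MachC.Acc M c

theorem MachC.acc_to (M : MachC A Q K) {c c' : Conf A Q K} (h : M.next c = Out.to c') :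
    M.Acc c ↔ M.Acc c' := by
  constructor
  · intro hc
    cases hc with
    | now _ h' => rw [h] at h'; cases h'
    | later _ c'' h' hc => rw [h] at h'; cases h'; exact hc
  · exact MachC.Acc.later c c' h

/-- Acceptance with the head on the next input field. -/
def MachC.F (M : MachC A Q K) (q : Q) (cells : List (Cell A K)) (g : K) (w : List A) : Prop :=
  M.Acc ⟨false, q, cells, g, w⟩

/-- Acceptance with the head on the top cell. -/
def MachC.L (M : MachC A Q K) (q : Q) (cells : List (Cell A K)) (g : K) (w : List A) : Prop :=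
  M.Acc ⟨true, q, cells, g, w⟩

theorem MachC.F_cons (M : MachC A Q K) (q : Q) (cells : List (Cell A K)) (g : K) (x : A)
    (w : List A) : M.F q cells g (x :: w) ↔ M.L q ((some x, g) :: cells) 0 w :=
  M.acc_to rfl

/-- The result of working on the given cells, starting on the top one. -/
inductive MachC.Rs (M : MachC A Q K) : Q → List (Cell A K) → K → Res A Q K → Prop
  | nil (q : Q) (g : K) : MachC.Rs M q [] g (Res.look q g)
  | acc {q c k r g} : M.act q c k g = Act.acc → MachC.Rs M q ((c, k) :: r) g Res.acc
  | keep {q c k r g q'} : M.act q c k g = Act.keep q' →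
      MachC.Rs M q ((c, k) :: r) g (Res.stay q' ((c, k) :: r) g)
  | blank {q c k r g q'} : M.act q c k g = Act.blank q' →
      MachC.Rs M q ((c, k) :: r) g (Res.stay q' ((none, k) :: r) g)
  | popRet {q c k r g q'} : M.act q c k g = Act.popRet q' →
      MachC.Rs M q ((c, k) :: r) g (Res.stay q' r (g + M.one + k))
  | popLook {q c k r g q' res} : M.act q c k g = Act.popLook q' →
      MachC.Rs M q' r (g + M.one + k) res → MachC.Rs M q ((c, k) :: r) g res
  | again {q c k r g q' res} : M.act q c k g = Act.again q' →
      MachC.Rs M q' ((c, k) :: r) g res → MachC.Rs M q ((c, k) :: r) g res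

namespace MachC

variable {M : MachC A Q K}

def interp (M : MachC A Q K) (μ : List (Cell A K)) (w : List A) : Res A Q K → Prop
  | Res.stay q' τ' g' => M.F q' (τ' ++ μ) g' w
  | Res.look e k => M.L e μ k w
  | Res.acc => True

theorem Rs.snd {q : Q} {τ : List (Cell A K)} {g : K} {res : Res A Q K} (h : M.Rs q τ g res)
    (μ : List (Cell A K)) (w : List A) : M.L q (τ ++ μ) g w ↔ M.interp μ w res := by
  induction h with
  | nil q g => exact Iff.rfl
  | acc h => exact iff_true_intro (Acc.now _ (by simp [next, h]))
  | keep h => exact M.acc_to (by simp [next, h])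
  | blank h => exact M.acc_to (by simp [next, h])
  | popRet h => exact M.acc_to (by simp [next, h])
  | popLook h _ ih => exact (M.acc_to (by simp [next, h])).trans ih
  | again h _ ih => exact (M.acc_to (by simp [next, h])).trans ih

theorem Rs.stay_append {q : Q} {τ : List (Cell A K)} {g : K} {res : Res A Q K}
    (h : M.Rs q τ g res) {q' : Q} {τ' : List (Cell A K)} {g' : K}
    (hr : res = Res.stay q' τ' g') (μ : List (Cell A K)) :
    M.Rs q (τ ++ μ) g (Res.stay q' (τ' ++ μ) g') := by
  induction h with
  | nil q g => cases hr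
  | acc h => cases hr
  | keep h => cases hr; exact Rs.keep h
  | blank h => cases hr; exact Rs.blank h
  | popRet h => cases hr; exact Rs.popRet h
  | popLook h _ ih => exact Rs.popLook h (ih hr)
  | again h _ ih => exact Rs.again h (ih hr)

theorem Rs.look_append {q : Q} {τ : List (Cell A K)} {g : K} {res : Res A Q K}
    (h : M.Rs q τ g res) {e : Q} {k : K} (hr : res = Res.look e k) {μ : List (Cell A K)}
    {res' : Res A Q K} (h' : M.Rs e μ k res') : M.Rs q (τ ++ μ) g res' := by
  induction h with
  | nil q g => cases hr; exact h'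
  | acc h => cases hr
  | keep h => cases hr
  | blank h => cases hr
  | popRet h => cases hr
  | popLook h _ ih => exact Rs.popLook h (ih hr)
  | again h _ ih => exact Rs.again h (ih hr)

/-- The total size of the cells and the gaps between them. -/
def mass (M : MachC A Q K) : List (Cell A K) → K
  | [] => 0
  | (_, k) :: r => M.one + k + mass M r

theorem mass_append (l l' : List (Cell A K)) : M.mass (l ++ l') = M.mass l + M.mass l' := by
  induction l with
  | nil => simp [mass]
  | cons c l ih => obtain ⟨c, k⟩ := c; simp [mass, ih, add_assoc]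

def massSpec (M : MachC A Q K) (τ : List (Cell A K)) (g : K) : Res A Q K → Prop
  | Res.stay _ τ' g' => M.mass τ' + g' = M.mass τ + g ∧ τ'.length ≤ τ.length
  | Res.look _ k => k = M.mass τ + g
  | Res.acc => True

theorem Rs.mass_eq {q : Q} {τ : List (Cell A K)} {g : K} {res : Res A Q K}
    (h : M.Rs q τ g res) : M.massSpec τ g res := by
  induction h with
  | nil q g => simp [mass, massSpec]
  | acc h => trivial
  | keep h => exact ⟨rfl, le_rfl⟩
  | blank h => exact ⟨rfl, le_rfl⟩
  | popRet h => exact ⟨by simp only [mass]; abel, by simp⟩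
  | @popLook q c k r g q' res h _ ih =>
    cases res with
    | stay q1 τ1 g1 => exact ⟨ih.1.trans (by simp only [mass]; abel), ih.2.trans (by simp)⟩
    | look e k1 => exact Eq.trans ih (by simp only [mass]; abel)
    | acc => trivial
  | again h _ ih => exact ih

theorem Rs.stay_length {q : Q} {τ : List (Cell A K)} {g : K} {q' τ' g'}
    (h : M.Rs q τ g (Res.stay q' τ' g')) : τ'.length ≤ τ.length := h.mass_eq.2

theorem Rs.look_mass {q : Q} {τ : List (Cell A K)} {g : K} {e k}
    (h : M.Rs q τ g (Res.look e k)) : k = M.mass τ + g := h.mass_eq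

def blankIf (b : Bool) : List (Cell A K) → List (Cell A K)
  | [] => []
  | (c, k) :: r => (if b then none else c, k) :: r

/-- `τ` is obtained from `X` by removing `j` cells and possibly erasing the new top cell. -/
def ShAt (M : MachC A Q K) (X : List (Cell A K)) (e : K) (j : ℕ) (b : Bool)
    (τ : List (Cell A K)) (g : K) : Prop :=
  j ≤ X.length ∧ τ = blankIf b (X.drop j) ∧ g = M.mass (X.take j) + e

theorem ShAt.length {X : List (Cell A K)} {e : K} {j : ℕ} {b : Bool} {τ : List (Cell A K)}
    {g : K} (h : M.ShAt X e j b τ g) : τ.length + j = X.length := by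
  obtain ⟨h1, rfl, -⟩ := h
  have : (blankIf b (X.drop j)).length = (X.drop j).length := by
    cases X.drop j with
    | nil => rfl
    | cons c r => rfl
  rw [this, List.length_drop]; omega

theorem ShAt.refl (X : List (Cell A K)) (e : K) : M.ShAt X e 0 false X e := by
  refine ⟨Nat.zero_le _, ?_, by simp [mass]⟩
  cases X with
  | nil => rfl
  | cons c r => rfl

theorem ShAt.add {X : List (Cell A K)} {e : K} {j : ℕ} {b : Bool} {τ : List (Cell A K)}
    {g : K} (h : M.ShAt X e j b τ g) (e' : K) : M.ShAt X (e + e') j b τ (g + e') :=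
  ⟨h.1, h.2.1, by rw [h.2.2, add_assoc]⟩

theorem ShAt.pop {X : List (Cell A K)} {e : K} {j : ℕ} {b : Bool} {c : Option A} {k : K}
    {r : List (Cell A K)} {g : K} (h : M.ShAt X e j b ((c, k) :: r) g) :
    M.ShAt X e (j + 1) false r (g + M.one + k) := by
  obtain ⟨h1, h2, h3⟩ := h
  cases hd : X.drop j with
  | nil => rw [hd] at h2; cases h2
  | cons c' r' =>
    obtain ⟨c', k'⟩ := c'
    rw [hd] at h2
    simp only [blankIf, List.cons.injEq, Prod.mk.injEq] at h2
    obtain ⟨⟨-, rfl⟩, rfl⟩ := h2
    have hlen : j < X.length := by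
      by_contra hc
      rw [List.drop_eq_nil_of_le (by omega)] at hd
      cases hd
    have hdrop : X.drop (j + 1) = r := by
      rw [← List.drop_drop, hd]; rfl
    have htake : X.take (j + 1) = X.take j ++ [(c', k)] := by
      rw [List.take_add, hd]; rfl
    refine ⟨hlen, ?_, ?_⟩
    · rw [hdrop]
      cases r with
      | nil => rfl
      | cons c r => rfl
    · rw [htake, mass_append, h3]
      simp only [mass]
      abel

theorem Rs.shape {q : Q} {τ : List (Cell A K)} {g : K} {res : Res A Q K}
    (h : M.Rs q τ g res) {q' : Q} {τ' : List (Cell A K)} {g' : K}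
    (hr : res = Res.stay q' τ' g') {X : List (Cell A K)} {e : K} {j : ℕ} {b : Bool}
    (hs : M.ShAt X e j b τ g) : ∃ j' b', M.ShAt X e j' b' τ' g' := by
  induction h generalizing j b with
  | nil q g => cases hr
  | acc h => cases hr
  | keep h => cases hr; exact ⟨j, b, hs⟩
  | blank h =>
    cases hr
    refine ⟨j, true, hs.1, ?_, hs.2.2⟩
    have h2 := hs.2.1
    cases hd : X.drop j with
    | nil => rw [hd] at h2; cases h2
    | cons c' r' =>
      obtain ⟨c', k'⟩ := c'
      rw [hd] at h2
      simp only [blankIf, List.cons.injEq, Prod.mk.injEq] at h2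
      obtain ⟨⟨-, rfl⟩, rfl⟩ := h2
      rfl
  | popRet h => cases hr; exact ⟨_, _, hs.pop⟩
  | popLook h _ ih => exact ih hr hs.pop
  | again h _ ih => exact ih hr hs

/-- A run on the upper cells that never looks below them. -/
inductive Ur (M : MachC A Q K) :
    Q → List (Cell A K) → K → List A → Q → List (Cell A K) → K → Prop
  | nil (q τ g) : Ur M q τ g [] q τ g
  | cons {q τ g x q1 τ1 g1 v q' τ' g'} : M.Rs q ((some x, g) :: τ) 0 (Res.stay q1 τ1 g1) →
      Ur M q1 τ1 g1 v q' τ' g' → Ur M q τ g (x :: v) q' τ' g'

theorem Ur.append {q τ g v q1 τ1 g1 v' q' τ' g'} (h : M.Ur q τ g v q1 τ1 g1)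
    (h' : M.Ur q1 τ1 g1 v' q' τ' g') : M.Ur q τ g (v ++ v') q' τ' g' := by
  induction h with
  | nil => exact h'
  | cons hs _ ih => exact Ur.cons hs (ih h')

theorem Ur.single {q τ g x q1 τ1 g1}
    (h : M.Rs q ((some x, g) :: τ) 0 (Res.stay q1 τ1 g1)) : M.Ur q τ g [x] q1 τ1 g1 :=
  Ur.cons h (Ur.nil _ _ _)

theorem Ur.lift {q τ g v q' τ' g'} (h : M.Ur q τ g v q' τ' g') (μ : List (Cell A K)) :
    M.Ur q (τ ++ μ) g v q' (τ' ++ μ) g' := by
  induction h with
  | nil => exact Ur.nil _ _ _
  | cons hs _ ih => exact Ur.cons (hs.stay_append rfl μ) ih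

theorem Ur.snd {q τ g v q' τ' g'} (h : M.Ur q τ g v q' τ' g') (μ : List (Cell A K))
    (w : List A) : M.F q (τ ++ μ) g (v ++ w) ↔ M.F q' (τ' ++ μ) g' w := by
  induction h with
  | nil => exact Iff.rfl
  | cons hs _ ih => exact (M.F_cons ..).trans ((hs.snd μ _).trans ih)

theorem Ur.mass_eq {q τ g v q' τ' g'} (h : M.Ur q τ g v q' τ' g') :
    M.mass τ' + g' = M.mass τ + g + v.length • M.one ∧ τ'.length ≤ τ.length + v.length := by
  induction h with
  | nil => simp
  | cons hs _ ih =>
    have := hs.mass_eq
    refine ⟨?_, by have := this.2; have := ih.2; simp at *; omega⟩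
    rw [ih.1, this.1]
    simp only [mass, List.length_cons, add_nsmul, one_nsmul]
    abel

/-- The result of the final phase, on the right sentinel, relative to the upper cells. -/
inductive Ends (M : MachC A Q K) : Q → List (Cell A K) → K → Option (Q × K) → Prop
  | finAcc {q τ g} : M.fin q g = EndAct.acc → Ends M q τ g none
  | finAgain {q τ g q' out} : M.fin q g = EndAct.again q' → Ends M q' τ g out → Ends M q τ g out
  | goAcc {q τ g q'} : M.fin q g = EndAct.go q' → M.Rs q' τ g Res.acc → Ends M q τ g none
  | goLook {q τ g q' e k} : M.fin q g = EndAct.go q' → M.Rs q' τ g (Res.look e k) →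
      Ends M q τ g (some (e, k))
  | goStay {q τ g q' q1 τ1 g1 out} : M.fin q g = EndAct.go q' →
      M.Rs q' τ g (Res.stay q1 τ1 g1) → Ends M q1 τ1 g1 out → Ends M q τ g out

def interpEnd (M : MachC A Q K) (μ : List (Cell A K)) : Option (Q × K) → Prop
  | none => True
  | some (e, k) => M.L e μ k []

theorem Ends.snd {q τ g out} (h : M.Ends q τ g out) (μ : List (Cell A K)) :
    M.F q (τ ++ μ) g [] ↔ M.interpEnd μ out := by
  induction h with
  | finAcc h => exact iff_true_intro (Acc.now _ (by simp [next, h]))
  | finAgain h _ ih => exact (M.acc_to (by simp [next, h])).trans ih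
  | goAcc h hr => exact (M.acc_to (by simp [next, h])).trans (hr.snd μ [])
  | goLook h hr => exact (M.acc_to (by simp [next, h])).trans (hr.snd μ [])
  | goStay h hr _ ih => exact (M.acc_to (by simp [next, h])).trans ((hr.snd μ []).trans ih)

theorem total_aux {c : Conf A Q K} (h : M.Acc c) (μ : List (Cell A K)) :
    ∀ τ, c.cells = τ ++ μ →
      (c.look = true → ∃ res, M.Rs c.q τ c.gap res ∧ (c.w = [] →
        ∀ q1 τ1 g1, res = Res.stay q1 τ1 g1 → ∃ out, M.Ends q1 τ1 g1 out)) ∧
      (c.look = false → c.w = [] → ∃ out, M.Ends c.q τ c.gap out) := by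
  induction h with
  | now c h =>
    intro τ hτ
    obtain ⟨m, q, cells, g, w⟩ := c
    simp only at hτ
    subst hτ
    constructor
    · rintro rfl
      cases τ with
      | nil => exact ⟨_, Rs.nil _ _, fun _ _ _ _ h => by cases h⟩
      | cons c r =>
        obtain ⟨c, k⟩ := c
        refine ⟨Res.acc, Rs.acc ?_, fun _ _ _ _ h => by cases h⟩
        simp only [next, List.cons_append] at h
        split at h <;> first | assumption | cases h
    · rintro rfl rfl
      refine ⟨none, Ends.finAcc ?_⟩
      simp only [next] at h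
      split at h <;> first | assumption | cases h
  | later c c' h _ ih =>
    intro τ hτ
    obtain ⟨m, q, cells, g, w⟩ := c
    simp only at hτ
    subst hτ
    constructor
    · rintro rfl
      cases τ with
      | nil => exact ⟨_, Rs.nil _ _, fun _ _ _ _ h => by cases h⟩
      | cons c r =>
        obtain ⟨c, k⟩ := c
        simp only [next, List.cons_append] at h
        split at h
        · rename_i q' ha
          cases h
          refine ⟨_, Rs.keep ha, fun hw q1 τ1 g1 hr => ?_⟩
          cases hr
          exact (ih ((c, k) :: r) rfl).2 rfl hw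
        · rename_i q' ha
          cases h
          refine ⟨_, Rs.blank ha, fun hw q1 τ1 g1 hr => ?_⟩
          cases hr
          exact (ih ((none, k) :: r) rfl).2 rfl hw
        · rename_i q' ha
          cases h
          refine ⟨_, Rs.popRet ha, fun hw q1 τ1 g1 hr => ?_⟩
          cases hr
          exact (ih r rfl).2 rfl hw
        · rename_i q' ha
          cases h
          obtain ⟨res, h1, h2⟩ := (ih r rfl).1 rfl
          exact ⟨res, Rs.popLook ha h1, h2⟩
        · rename_i q' ha
          cases h
          obtain ⟨res, h1, h2⟩ := (ih ((c, k) :: r) rfl).1 rfl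
          exact ⟨res, Rs.again ha h1, h2⟩
        · cases h
        · cases h
    · rintro rfl rfl
      simp only [next] at h
      split at h
      · rename_i q' ha
        cases h
        obtain ⟨res, h1, h2⟩ := (ih τ rfl).1 rfl
        cases res with
        | stay q1 τ1 g1 =>
          obtain ⟨out, ho⟩ := h2 rfl q1 τ1 g1 rfl
          exact ⟨out, Ends.goStay ha h1 ho⟩
        | look e k => exact ⟨_, Ends.goLook ha h1⟩
        | acc => exact ⟨_, Ends.goAcc ha h1⟩
      · rename_i q' ha
        cases h
        obtain ⟨out, ho⟩ := (ih τ rfl).2 rfl rfl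
        exact ⟨out, Ends.finAgain ha ho⟩
      · cases h
      · cases h

theorem L_total {q : Q} {τ μ : List (Cell A K)} {g : K} {w : List A}
    (h : M.L q (τ ++ μ) g w) : ∃ res, M.Rs q τ g res := by
  obtain ⟨res, h, -⟩ := (total_aux h μ τ rfl).1 rfl
  exact ⟨res, h⟩

theorem F_total {q : Q} {τ μ : List (Cell A K)} {g : K}
    (h : M.F q (τ ++ μ) g []) : ∃ out, M.Ends q τ g out :=
  (total_aux h μ τ rfl).2 rfl rfl

theorem bot_aux {c : Conf A Q K} (h : M.Acc c) : c.look = true → c.cells = [] →
    (∃ q', ∀ w, M.L c.q [] c.gap w ↔ M.F q' [] c.gap w) ∨ ∀ w, M.L c.q [] c.gap w := by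
  induction h with
  | now c h =>
    obtain ⟨m, q, cells, g, w⟩ := c
    rintro rfl rfl
    right
    intro w'
    refine Acc.now _ ?_
    simp only [next] at h ⊢
    split at h <;> cases h
    rfl
  | later c c' h _ ih =>
    obtain ⟨m, q, cells, g, w⟩ := c
    rintro rfl rfl
    simp only [next] at h
    split at h
    · rename_i q' ha
      exact Or.inl ⟨q', fun w' => M.acc_to (by simp [next, ha])⟩
    · rename_i q' ha
      cases h
      have key : ∀ w', M.L q [] g w' ↔ M.L q' [] g w' := fun w' => M.acc_to (by simp [next, ha])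
      rcases ih rfl rfl with ⟨q'', h'⟩ | h'
      · exact Or.inl ⟨q'', fun w' => (key w').trans (h' w')⟩
      · exact Or.inr fun w' => (key w').2 (h' w')
    · cases h
    · cases h

end MachC

end Pool.Agent.P.MP_47d067_lc
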