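import Pool.Agent.P.MP_47d067_lc.Defs
import Pool.Agent.P.MP_47d067_lc.MachC

/-!
A simulation principle between forgetting automata and the abstract stack machine.
-/

set_option autoImplicit false

namespace Pool.Agent.P.MP_47d067_lc

open Relation

variable {A S K : Type}

def ForgAut.AccX (M : ForgAut A S) (x : S × Tape A) : Prop :=
  ∃ c, ReflTransGen M.Step x c ∧ c.1 ∈ M.final

def ForgAut.StepN (M : ForgAut A S) (x y : S × Tape A) : Prop := x.1 ∉ M.final ∧ M.Step x y

namespace ForgAut

variable {M : ForgAut A S}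

theorem step_unique (hd : M.Deterministic) {x y y'} (h : M.Step x y) (h' : M.Step x y') :
    y = y' := by
  obtain ⟨o, h1, h2⟩ := h
  obtain ⟨o', h1', h2'⟩ := h'
  have := hd _ _ h1 h1'
  obtain ⟨e1, rfl⟩ := Prod.mk.inj this
  rw [h2] at h2'
  exact Prod.ext e1 (Option.some.inj h2')

theorem AccX.of_final {x} (h : x.1 ∈ M.final) : M.AccX x := ⟨x, ReflTransGen.refl, h⟩

theorem AccX.back {x y} (h : ReflTransGen M.StepN x y) (hy : M.AccX y) : M.AccX x := by
  obtain ⟨c, h1, h2⟩ := hy
  refine ⟨c, ?_, h2⟩
  induction h using ReflTransGen.head_induction_on with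
  | refl => exact h1
  | head h3 _ ih => exact ReflTransGen.head h3.2 ih

theorem AccX.exists_step {x} (h : M.AccX x) (hx : x.1 ∉ M.final) :
    ∃ y, M.Step x y ∧ M.AccX y := by
  obtain ⟨c, h1, h2⟩ := h
  rcases h1.cases_head with rfl | ⟨y, h3, h4⟩
  · exact absurd h2 hx
  · exact ⟨y, h3, c, h4, h2⟩

theorem AccX.fwd1 (hd : M.Deterministic) {x y} (h : M.AccX x) (hs : M.StepN x y) :
    M.AccX y := by
  obtain ⟨y', h1, h2⟩ := h.exists_step hs.1
  rwa [step_unique hd hs.2 h1]

theorem AccX.fwd (hd : M.Deterministic) {x y} (hs : ReflTransGen M.StepN x y) (h : M.AccX x) :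
    M.AccX y := by
  induction hs with
  | refl => exact h
  | tail _ h2 ih => exact ih.fwd1 hd h2

theorem AccX.wf (hd : M.Deterministic) {x} (h : M.AccX x) : Acc (fun y x => M.StepN x y) x := by
  obtain ⟨c, h1, h2⟩ := h
  induction h1 using ReflTransGen.head_induction_on with
  | refl => exact Acc.intro _ fun y hy => absurd h2 hy.1
  | head h3 _ ih => exact Acc.intro _ fun y hy => step_unique hd h3 hy.2 ▸ ih

theorem not_acc {s : S} {t : Tape A} (hs : s ∉ M.final) (h : ¬ ∃ p, p ∈ M.trans s t.cur) :
    ¬ M.AccX (s, t) := by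
  intro ha
  obtain ⟨y, ⟨o, h1, -⟩, -⟩ := ha.exists_step hs
  exact h ⟨_, h1⟩

end ForgAut

/-- What one move of the stack machine means for the automaton. -/
def simSpec {K : Type} (M : ForgAut A S) (R : Conf A S K → S × Tape A → Prop) (x : S × Tape A) :
    Out A S K → Prop
  | Out.acc => M.AccX x
  | Out.rej => ¬ M.AccX x
  | Out.to cf => ∃ y, R cf y ∧ TransGen M.StepN x y

theorem sim_iff [AddCommMonoid K] {M : ForgAut A S} (hd : M.Deterministic) (N : MachC A S K)
    (R : Conf A S K → S × Tape A → Prop)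
    (hread : ∀ q cells g a w x, R ⟨false, q, cells, g, a :: w⟩ x →
      R ⟨true, q, (some a, g) :: cells, 0, w⟩ x)
    (hstep : ∀ cf x, R cf x → (cf.look = true ∨ cf.w = []) → simSpec M R x (N.next cf))
    {cf x} (h : R cf x) : N.Acc cf ↔ M.AccX x := by
  have hnorm : ∀ cf : Conf A S K, (cf.look = true ∨ cf.w = []) ∨
      ∃ q cells g a w, cf = ⟨false, q, cells, g, a :: w⟩ := by
    rintro ⟨b, q, cells, g, w⟩
    cases b
    · cases w
      · exact Or.inl (Or.inr rfl)
      · exact Or.inr ⟨_, _, _, _, _, rfl⟩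
    · exact Or.inl (Or.inl rfl)
  constructor
  · intro ha
    induction ha generalizing x with
    | now c hc =>
      rcases hnorm c with hn | ⟨q, cells, g, a, w, rfl⟩
      · have := hstep c x h hn
        rwa [hc] at this
      · cases hc
    | later c c' hc _ ih =>
      rcases hnorm c with hn | ⟨q, cells, g, a, w, rfl⟩
      · have := hstep c x h hn
        rw [hc] at this
        obtain ⟨y, h1, h2⟩ := this
        exact (ih h1).back h2.to_reflTransGen
      · cases hc
        exact ih (hread _ _ _ _ _ _ h)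
  · intro ha
    have hw := (ha.wf hd).transGen
    induction hw generalizing cf with
    | intro x _ ih =>
      have key : ∀ cf, R cf x → (cf.look = true ∨ cf.w = []) → N.Acc cf := by
        intro cf h hn
        have := hstep cf x h hn
        rcases hc : N.next cf with _ | _ | cf'
        · exact MachC.Acc.now _ hc
        · rw [hc] at this; exact absurd ha this
        · rw [hc] at this
          obtain ⟨y, h1, h2⟩ := this
          exact MachC.Acc.later _ _ hc (ih y (transGen_swap.2 h2) h1
            (ForgAut.AccX.fwd hd h2.to_reflTransGen ha))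
      rcases hnorm cf with hn | ⟨q, cells, g, a, w, rfl⟩
      · exact key cf h hn
      · exact MachC.Acc.later _ _ rfl (key _ (hread _ _ _ _ _ _ h) (Or.inl rfl))

/-- The tape cut at a boundary between two fields; the head is on the field to the right
(`true`) or to the left (`false`) of the boundary. -/
def tp : Bool → List (TSym A) → List (TSym A) → Tape A
  | true, l, b :: r => ⟨l, b, r⟩
  | false, a :: l, r => ⟨l, a, r⟩
  | _, _, _ => ⟨[], TSym.blank, []⟩

def rt (w : List A) : List (TSym A) := w.map TSym.letter ++ [TSym.rgt]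

theorem rt_ne_nil (w : List A) : rt w ≠ [] := by simp [rt]

theorem apply_mvR (l : List (TSym A)) (c : TSym A) {r : List (TSym A)} (h : r ≠ []) :
    Tape.apply Op.mvR ⟨l, c, r⟩ = some (tp true (c :: l) r) := by
  obtain ⟨x, r, rfl⟩ := List.exists_cons_of_ne_nil h; rfl

theorem apply_erR (l : List (TSym A)) (c : TSym A) {r : List (TSym A)} (h : r ≠ []) :
    Tape.apply Op.erR ⟨l, c, r⟩ = some (tp true (TSym.blank :: l) r) := by
  obtain ⟨x, r, rfl⟩ := List.exists_cons_of_ne_nil h; rfl

theorem apply_dlR (l : List (TSym A)) (c : TSym A) {r : List (TSym A)} (h : r ≠ []) :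
    Tape.apply Op.dlR ⟨l, c, r⟩ = some (tp true l r) := by
  obtain ⟨x, r, rfl⟩ := List.exists_cons_of_ne_nil h; rfl

theorem apply_mvL {l : List (TSym A)} (c : TSym A) (r : List (TSym A)) (h : l ≠ []) :
    Tape.apply Op.mvL ⟨l, c, r⟩ = some (tp false l (c :: r)) := by
  obtain ⟨x, l, rfl⟩ := List.exists_cons_of_ne_nil h; rfl

theorem apply_erL {l : List (TSym A)} (c : TSym A) (r : List (TSym A)) (h : l ≠ []) :
    Tape.apply Op.erL ⟨l, c, r⟩ = some (tp false l (TSym.blank :: r)) := by
  obtain ⟨x, l, rfl⟩ := List.exists_cons_of_ne_nil h; rfl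

theorem apply_dlL {l : List (TSym A)} (c : TSym A) (r : List (TSym A)) (h : l ≠ []) :
    Tape.apply Op.dlL ⟨l, c, r⟩ = some (tp false l r) := by
  obtain ⟨x, l, rfl⟩ := List.exists_cons_of_ne_nil h; rfl

/-- A chosen element satisfying `p`, if there is one. -/
noncomputable def pick {α : Type} (p : α → Prop) : Option α := by
  classical
  exact if h : ∃ a, p a then some h.choose else none

theorem pick_cases {α : Type} (p : α → Prop) :
    (pick p = none ∧ ¬ ∃ a, p a) ∨ ∃ a, pick p = some a ∧ p a := by
  by_cases h : ∃ a, p a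
  · exact Or.inr ⟨h.choose, by simp [pick, h], h.choose_spec⟩
  · exact Or.inl ⟨by simp [pick, h], h⟩

end Pool.Agent.P.MP_47d067_lc
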