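import Pool.Agent.P.MP_47d067_lc.Sim
import Pool.Agent.P.MP_47d067_lc.Gap
import Pool.Agent.P.MP_47d067_lc.Init

/-!
Automata with the operations move right, erase left and erase right.
-/

set_option autoImplicit false

namespace Pool.Agent.P.MP_47d067_lc

open Relation

variable {A S : Type}

/-- The moves on a blank field. -/
def blk (M : ForgAut A S) (s s' : S) : Bool → Prop
  | true => (s', Op.mvR) ∈ M.trans s TSym.blank ∨ (s', Op.erR) ∈ M.trans s TSym.blank
  | false => (s', Op.erL) ∈ M.trans s TSym.blank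

def bl (n : ℕ) (l : List (TSym A)) : List (TSym A) := List.replicate n TSym.blank ++ l

theorem bl_succ (n : ℕ) (l : List (TSym A)) : bl (n + 1) l = TSym.blank :: bl n l := rfl

theorem bl_ne_nil (n : ℕ) {l : List (TSym A)} (h : l ≠ []) : bl n l ≠ [] := by simp [bl, h]

theorem bl_bl (n m : ℕ) (l : List (TSym A)) : bl n (bl m l) = bl (n + m) l := by
  simp [bl, ← List.append_assoc]

variable {M : ForgAut A S} {X Y : List (TSym A)}

theorem blk_step (hX : X ≠ []) (hY : Y ≠ []) {s s' : S} (hs : s ∉ M.final) (l r : ℕ) :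
    (blk M s s' true → M.StepN (s, ⟨bl l X, TSym.blank, bl r Y⟩)
      (s', tp true (bl (l + 1) X) (bl r Y))) ∧
    (blk M s s' false → M.StepN (s, ⟨bl l X, TSym.blank, bl r Y⟩)
      (s', tp false (bl l X) (bl (r + 1) Y))) := by
  refine ⟨?_, fun h => ⟨hs, _, h, apply_erL _ _ (bl_ne_nil _ hX)⟩⟩
  rintro (h | h)
  · exact ⟨hs, _, h, apply_mvR _ _ (bl_ne_nil _ hY)⟩
  · exact ⟨hs, _, h, apply_erR _ _ (bl_ne_nil _ hY)⟩

def gapSpec (M : ForgAut A S) (X Y : List (TSym A)) (n : ℕ) (x : S × Tape A) : GOut S → Prop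
  | none => M.AccX x
  | some (true, s') => ReflTransGen M.StepN x (s', tp true (bl n X) Y)
  | some (false, s') => ReflTransGen M.StepN x (s', tp false X (bl n Y))

theorem gapSpec.back {n x y o} (h : M.StepN x y) (hy : gapSpec M X Y n y o) :
    gapSpec M X Y n x o := by
  rcases o with _ | ⟨_ | _, s⟩
  · exact ForgAut.AccX.back (ReflTransGen.single h) hy
  · exact ReflTransGen.head h hy
  · exact ReflTransGen.head h hy

theorem mv_sound (hX : X ≠ []) (hY : Y ≠ []) {d l r s o} (h : Mv M.final (blk M) d l r s o) :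
    gapSpec M X Y (l + r) (s, tp d (bl l X) (bl r Y)) o := by
  induction h with
  | exitR l s => exact ReflTransGen.refl
  | exitL r s => rw [zero_add]; exact ReflTransGen.refl
  | accR l r s h => exact ForgAut.AccX.of_final h
  | accL l r s h => exact ForgAut.AccX.of_final h
  | @goRR l r s s' o h1 h2 _ ih =>
    rw [show l + (r + 1) = l + 1 + r by omega]
    exact gapSpec.back ((blk_step hX hY h1 l r).1 h2) ih
  | @goRL l r s s' o h1 h2 _ ih => exact gapSpec.back ((blk_step hX hY h1 l r).2 h2) ih
  | @goLR l r s s' o h1 h2 _ ih => exact gapSpec.back ((blk_step hX hY h1 l r).1 h2) ih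
  | @goLL l r s s' o h1 h2 _ ih =>
    rw [show l + 1 + r = l + (r + 1) by omega]
    exact gapSpec.back ((blk_step hX hY h1 l r).2 h2) ih

theorem mv_total (hd : M.Deterministic) (ho : M.ops = {Op.mvR, Op.erL, Op.erR}) (hX : X ≠ [])
    (hY : Y ≠ []) {d l r s} (h : M.AccX (s, tp d (bl l X) (bl r Y))) :
    ∃ o, Mv M.final (blk M) d l r s o := by
  have hw := h.wf hd
  generalize hx : (s, tp d (bl l X) (bl r Y)) = x at hw h
  induction hw generalizing d l r s with
  | intro x _ ih =>
    have key : ∀ l r s, (s, (⟨bl l X, TSym.blank, bl r Y⟩ : Tape A)) = x → s ∉ M.final →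
        (∃ s' o, blk M s s' true ∧ Mv M.final (blk M) true (l + 1) r s' o) ∨
        ∃ s' o, blk M s s' false ∧ Mv M.final (blk M) false l (r + 1) s' o := by
      rintro l r s rfl hs
      obtain ⟨⟨s', t⟩, ⟨op, h1, -⟩, -⟩ := h.exists_step hs
      have h2 := M.trans_ops _ _ _ h1
      rw [ho] at h2
      have h3 : blk M s s' true ∨ blk M s s' false := by
        rcases h2 with rfl | rfl | rfl
        · exact Or.inl (Or.inl h1)
        · exact Or.inr h1
        · exact Or.inl (Or.inr h1)
      rcases h3 with h3 | h3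
      · have h4 := (blk_step hX hY hs l r).1 h3
        obtain ⟨o, h5⟩ := ih _ h4 rfl (h.fwd1 hd h4)
        exact Or.inl ⟨s', o, h3, h5⟩
      · have h4 := (blk_step hX hY hs l r).2 h3
        obtain ⟨o, h5⟩ := ih _ h4 rfl (h.fwd1 hd h4)
        exact Or.inr ⟨s', o, h3, h5⟩
    cases d
    · cases l with
      | zero => exact ⟨_, Mv.exitL _ _⟩
      | succ l =>
        by_cases hs : s ∈ M.final
        · exact ⟨_, Mv.accL _ _ _ hs⟩
        · rcases key l r s hx hs with ⟨s', o, h1, h2⟩ | ⟨s', o, h1, h2⟩
          · exact ⟨o, Mv.goLR hs h1 h2⟩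
          · exact ⟨o, Mv.goLL hs h1 h2⟩
    · cases r with
      | zero => exact ⟨_, Mv.exitR _ _⟩
      | succ r =>
        by_cases hs : s ∈ M.final
        · exact ⟨_, Mv.accR _ _ _ hs⟩
        · rcases key l r s hx hs with ⟨s', o, h1, h2⟩ | ⟨s', o, h1, h2⟩
          · exact ⟨o, Mv.goRR hs h1 h2⟩
          · exact ⟨o, Mv.goRL hs h1 h2⟩

abbrev KA (M : ForgAut A S) := (gapCon M.final (blk M)).Quotient

def outOf {α : Type} (fR fL : S → α) (a r : α) : Option (GOut S) → α
  | none => r
  | some none => a
  | some (some (true, s)) => fR s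
  | some (some (false, s)) => fL s

noncomputable def actA (M : ForgAut A S) (k g : KA M) : Option (S × Op) → Act S
  | some (q, Op.mvR) => outOf Act.keep Act.again Act.acc Act.rej
      (pick (MvK M.final (blk M) true ((0 : ℕ) : KA M) g q))
  | some (q, Op.erR) => outOf Act.popRet Act.popLook Act.acc Act.rej
      (pick (MvK M.final (blk M) true (k + ((1 : ℕ) : KA M)) g q))
  | some (q, Op.erL) => outOf Act.popRet Act.popLook Act.acc Act.rej
      (pick (MvK M.final (blk M) false k (g + ((1 : ℕ) : KA M)) q))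
  | _ => Act.rej

noncomputable def botA (M : ForgAut A S) (g : KA M) : Option (S × Op) → EndAct S
  | some (q, _) => outOf EndAct.go EndAct.again EndAct.acc EndAct.rej
      (pick (MvK M.final (blk M) true ((0 : ℕ) : KA M) g q))
  | none => EndAct.rej

noncomputable def finA (M : ForgAut A S) (g : KA M) : Option (S × Op) → EndAct S
  | some (q, _) => outOf EndAct.again EndAct.go EndAct.acc EndAct.rej
      (pick (MvK M.final (blk M) false g ((0 : ℕ) : KA M) q))
  | none => EndAct.rej

open Classical in
noncomputable def machA (M : ForgAut A S) : MachC A S (KA M) where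
  one := ((1 : ℕ) : KA M)
  act := fun q c k g => if q ∈ M.final then Act.acc else
    match c with
    | some a => actA M k g (pick (· ∈ M.trans q (TSym.letter a)))
    | none => Act.rej
  bot := fun q g => if q ∈ M.final then EndAct.acc else botA M g (pick (· ∈ M.trans q TSym.lft))
  fin := fun q g => if q ∈ M.final then EndAct.acc else finA M g (pick (· ∈ M.trans q TSym.rgt))

def concA : List (A × ℕ) → List (TSym A)
  | [] => [TSym.lft]
  | (a, n) :: r => TSym.letter a :: bl n (concA r)

theorem concA_ne_nil (l : List (A × ℕ)) : concA l ≠ [] := by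
  cases l with
  | nil => simp [concA]
  | cons c r => simp [concA]

def absA (M : ForgAut A S) (p : A × ℕ) : Cell A (KA M) := (some p.1, (p.2 : KA M))

def tapeA (cs : List (A × ℕ)) (n : ℕ) (w : List A) : Bool → Tape A
  | true => tp false (concA cs) (bl n (rt w))
  | false => tp true (bl n (concA cs)) (rt w)

def relA (M : ForgAut A S) (cf : Conf A S (KA M)) (x : S × Tape A) : Prop :=
  ∃ (cs : List (A × ℕ)) (n : ℕ), cf.cells = cs.map (absA M) ∧ cf.gap = (n : KA M) ∧
    x = (cf.q, tapeA cs n cf.w cf.look)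

/-- After one move into a block of blanks, the walk ends in a configuration of the stack
machine. -/
theorem after_move (hd : M.Deterministic) (ho : M.ops = {Op.mvR, Op.erL, Op.erR})
    (cs : List (A × ℕ)) (w : List A) {x : S × Tape A} {d l r s}
    (hx : M.StepN x (s, tp d (bl l (concA cs)) (bl r (rt w)))) {k g e : KA M}
    (hk : k = (l : ℕ)) (hg : g = (r : ℕ)) (he : e = ((l + r : ℕ) : KA M)) :
    simSpec M (relA M) x (outOf (fun q => Out.to ⟨false, q, cs.map (absA M), e, w⟩)
      (fun q => Out.to ⟨true, q, cs.map (absA M), e, w⟩) Out.acc Out.rej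
      (pick (MvK M.final (blk M) d k g s))) := by
  subst hk hg he
  rcases pick_cases (MvK M.final (blk M) d (l : ℕ) (r : ℕ) s) with ⟨h1, h2⟩ | ⟨o, h1, h2⟩
  · rw [h1]
    intro ha
    obtain ⟨o, h3⟩ := mv_total hd ho (concA_ne_nil cs) (rt_ne_nil w) (ha.fwd1 hd hx)
    exact h2 ⟨o, (mvK_iff ..).2 h3⟩
  · rw [h1]
    have h3 := (mv_sound (concA_ne_nil cs) (rt_ne_nil w) ((mvK_iff ..).1 h2))
    rcases o with _ | ⟨_ | _, s'⟩
    · exact ForgAut.AccX.back (ReflTransGen.single hx) h3
    · exact ⟨_, ⟨cs, _, rfl, rfl, rfl⟩, TransGen.head' hx h3⟩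
    · exact ⟨_, ⟨cs, _, rfl, rfl, rfl⟩, TransGen.head' hx h3⟩

theorem simA_step (hd : M.Deterministic) (ho : M.ops = {Op.mvR, Op.erL, Op.erR})
    (cf : Conf A S (KA M)) (x : S × Tape A) (h : relA M cf x)
    (hn : cf.look = true ∨ cf.w = []) : simSpec M (relA M) x ((machA M).next cf) := by
  obtain ⟨b, q, cells, g, w⟩ := cf
  obtain ⟨cs, n, h1, h2, rfl⟩ := h
  simp only at h1 h2
  subst h1 h2
  by_cases hq : q ∈ M.final
  · have : (machA M).next ⟨b, q, cs.map (absA M), n, w⟩ = Out.acc := by
      cases b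
      · obtain rfl : w = [] := by simpa using hn
        simp [MachC.next, machA, hq]
      · cases cs <;> simp [MachC.next, machA, hq]
    rw [this]
    exact ForgAut.AccX.of_final hq
  cases b
  · obtain rfl : w = [] := by simpa using hn
    rcases pick_cases (· ∈ M.trans q TSym.rgt) with ⟨h1, h2⟩ | ⟨⟨q', o⟩, h1, h2⟩
    · simp only [MachC.next, machA, hq, if_false, h1, finA]
      exact ForgAut.not_acc hq h2
    · have := after_move hd ho cs [] (x := (q, tapeA cs n [] false)) (d := false) (l := n)
        (r := 0) (s := q') ⟨hq, o, h2, apply_mvL _ _ (bl_ne_nil _ (concA_ne_nil _))⟩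
        rfl rfl (e := (n : ℕ)) rfl
      simp only [MachC.next, machA, hq, if_false, h1, finA]
      revert this
      rcases pick (MvK M.final (blk M) false (n : ℕ) ((0 : ℕ) : KA M) q') with
        _ | _ | ⟨_ | _, s'⟩ <;> exact id
  · cases cs with
    | nil =>
      rcases pick_cases (· ∈ M.trans q TSym.lft) with ⟨h1, h2⟩ | ⟨⟨q', o⟩, h1, h2⟩
      · simp only [MachC.next, machA, hq, if_false, h1, botA, List.map_nil]
        exact ForgAut.not_acc hq h2
      · have := after_move hd ho [] w (x := (q, tapeA [] n w true)) (d := true) (l := 0)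
          (r := n) (s := q') ⟨hq, o, h2, apply_mvR _ _ (bl_ne_nil _ (rt_ne_nil _))⟩
          rfl rfl (e := (n : ℕ)) (by rw [zero_add])
        simp only [MachC.next, machA, hq, if_false, h1, botA, List.map_nil]
        revert this
        rcases pick (MvK M.final (blk M) true ((0 : ℕ) : KA M) (n : ℕ) q') with
          _ | _ | ⟨_ | _, s'⟩ <;> exact id
    | cons c cs =>
      obtain ⟨a, m⟩ := c
      rcases pick_cases (· ∈ M.trans q (TSym.letter a)) with ⟨h1, h2⟩ | ⟨⟨q', o⟩, h1, h2⟩
      · simp only [MachC.next, machA, hq, if_false, h1, actA, List.map_cons, absA]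
        exact ForgAut.not_acc hq h2
      · have h3 := M.trans_ops _ _ _ h2
        rw [ho] at h3
        have he : (n : KA M) + ((1 : ℕ) : KA M) + (m : ℕ) = ((n + 1 + m : ℕ) : KA M) := rfl
        rcases h3 with rfl | rfl | rfl
        · have := after_move hd ho ((a, m) :: cs) w (x := (q, tapeA ((a, m) :: cs) n w true))
            (d := true) (l := 0) (r := n) (s := q')
            ⟨hq, _, h2, apply_mvR _ _ (bl_ne_nil _ (rt_ne_nil _))⟩
            rfl rfl (e := (n : ℕ)) (by rw [zero_add])
          simp only [MachC.next, machA, hq, if_false, h1, actA, List.map_cons, absA]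
          revert this
          rcases pick (MvK M.final (blk M) true ((0 : ℕ) : KA M) (n : ℕ) q') with
            _ | _ | ⟨_ | _, s'⟩ <;> exact id
        · have := after_move hd ho cs w (x := (q, tapeA ((a, m) :: cs) n w true))
            (d := false) (l := m) (r := n + 1) (s := q')
            ⟨hq, _, h2, apply_erL _ _ (bl_ne_nil _ (concA_ne_nil _))⟩
            rfl (g := (n : KA M) + ((1 : ℕ) : KA M)) rfl (he.trans (by rw [add_comm]))
          simp only [MachC.next, machA, hq, if_false, h1, actA, List.map_cons, absA]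
          revert this
          rcases pick (MvK M.final (blk M) false (m : ℕ) ((n : KA M) + ((1 : ℕ) : KA M)) q') with
            _ | _ | ⟨_ | _, s'⟩ <;> exact id
        · have := after_move hd ho cs w (x := (q, tapeA ((a, m) :: cs) n w true))
            (d := true) (l := m + 1) (r := n) (s := q')
            ⟨hq, _, h2, apply_erR _ _ (bl_ne_nil _ (rt_ne_nil _))⟩
            (k := (m : KA M) + ((1 : ℕ) : KA M)) rfl rfl
            (he.trans (by rw [show n + 1 + m = m + 1 + n by omega]))
          simp only [MachC.next, machA, hq, if_false, h1, actA, List.map_cons, absA]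
          revert this
          rcases pick (MvK M.final (blk M) true ((m : KA M) + ((1 : ℕ) : KA M)) (n : ℕ) q') with
            _ | _ | ⟨_ | _, s'⟩ <;> exact id

theorem not_detForg_A {κ : Type} [DecidableEq κ] [Fintype κ] (hn : 262176 ≤ Fintype.card κ)
    (z : κ) : ¬ DetForg {Op.mvR, Op.erL, Op.erR} (witness z) := by
  rintro ⟨S, _, M, ho, hd, hL⟩
  have : Finite (KA M) := gapCon_finite
  have h : CorrL (machA M) M.start [] 0 [z] := by
    refine ⟨by simp, fun w => ?_⟩
    have := sim_iff hd (machA M) (relA M) (by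
      rintro q cells g a w x ⟨cs, n, h1, h2, rfl⟩
      simp only at h1 h2
      subst h1 h2
      exact ⟨(a, n) :: cs, 0, rfl, rfl, rfl⟩) (simA_step hd ho)
      (cf := ⟨true, M.start, [], 0, w⟩) (x := M.init w) ⟨[], 0, rfl, rfl, rfl⟩
    exact this.trans (show w ∈ M.language ↔ w ∈ witness z by rw [hL])
  obtain ⟨q, hq⟩ := h.bot
  exact no_machine hn hq

end Pool.Agent.P.MP_47d067_lc
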