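import Pool.Agent.P.MP_47d067_lc.Sim
import Pool.Agent.P.MP_47d067_lc.Init

/-!
Automata with the operations move right, erase right, delete left and delete right.
-/

set_option autoImplicit false

namespace Pool.Agent.P.MP_47d067_lc

open Relation

variable {A S : Type}

def symB : Option A → TSym A
  | some a => TSym.letter a
  | none => TSym.blank

def concB : List (Cell A Unit) → List (TSym A)
  | [] => [TSym.lft]
  | (c, _) :: r => symB c :: concB r

theorem concB_ne_nil (l : List (Cell A Unit)) : concB l ≠ [] := by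
  cases l with
  | nil => simp [concB]
  | cons c r => simp [concB]

def actB : Option (S × Op) → Act S
  | some (q, Op.mvR) => Act.keep q
  | some (q, Op.erR) => Act.blank q
  | some (q, Op.dlR) => Act.popRet q
  | some (q, Op.dlL) => Act.popLook q
  | _ => Act.rej

def endB : Option (S × Op) → EndAct S
  | some (q, _) => EndAct.go q
  | none => EndAct.rej

open Classical in
noncomputable def machB (M : ForgAut A S) : MachC A S Unit where
  one := 0
  act := fun q c _ _ => if q ∈ M.final then Act.acc else actB (pick (· ∈ M.trans q (symB c)))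
  bot := fun q _ => if q ∈ M.final then EndAct.acc else endB (pick (· ∈ M.trans q TSym.lft))
  fin := fun q _ => if q ∈ M.final then EndAct.acc else endB (pick (· ∈ M.trans q TSym.rgt))

def relB (cf : Conf A S Unit) (x : S × Tape A) : Prop :=
  x = (cf.q, tp (!cf.look) (concB cf.cells) (rt cf.w))

theorem effOp_symB (c : Option A) (o : Op) : effOp (symB c) o = o := by cases c <;> rfl

theorem simB_step (M : ForgAut A S) (ho : M.ops = {Op.mvR, Op.erR, Op.dlL, Op.dlR})
    (cf : Conf A S Unit) (x : S × Tape A) (h : relB cf x) (hn : cf.look = true ∨ cf.w = []) :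
    simSpec M relB x ((machB M).next cf) := by
  obtain ⟨b, q, cells, g, w⟩ := cf
  obtain rfl : x = _ := h
  by_cases hq : q ∈ M.final
  · have : (machB M).next ⟨b, q, cells, g, w⟩ = Out.acc := by
      cases b
      · obtain rfl : w = [] := by simpa using hn
        simp [MachC.next, machB, hq]
      · cases cells <;> simp [MachC.next, machB, hq]
    rw [this]
    exact ForgAut.AccX.of_final hq
  cases b
  · obtain rfl : w = [] := by simpa using hn
    rcases pick_cases (· ∈ M.trans q TSym.rgt) with ⟨h1, h2⟩ | ⟨⟨q', o⟩, h1, h2⟩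
    · simp only [MachC.next, machB, hq, if_false, h1, endB]
      exact ForgAut.not_acc hq h2
    · simp only [MachC.next, machB, hq, if_false, h1, endB]
      exact ⟨_, rfl, TransGen.single ⟨hq, o, h2, apply_mvL _ _ (concB_ne_nil _)⟩⟩
  · cases cells with
    | nil =>
      rcases pick_cases (· ∈ M.trans q TSym.lft) with ⟨h1, h2⟩ | ⟨⟨q', o⟩, h1, h2⟩
      · simp only [MachC.next, machB, hq, if_false, h1, endB]
        exact ForgAut.not_acc hq h2
      · simp only [MachC.next, machB, hq, if_false, h1, endB]
        exact ⟨_, rfl, TransGen.single ⟨hq, o, h2, apply_mvR _ _ (rt_ne_nil _)⟩⟩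
    | cons c r =>
      obtain ⟨c, k⟩ := c
      rcases pick_cases (· ∈ M.trans q (symB c)) with ⟨h1, h2⟩ | ⟨⟨q', o⟩, h1, h2⟩
      · simp only [MachC.next, machB, hq, if_false, h1, actB]
        exact ForgAut.not_acc hq h2
      · have h3 := M.trans_ops _ _ _ h2
        rw [ho] at h3
        have h4 : ∀ t, Tape.apply o ⟨concB r, symB c, rt w⟩ = some t →
            TransGen M.StepN (q, tp false (concB ((c, k) :: r)) (rt w)) (q', t) := fun t ht =>
          TransGen.single ⟨hq, o, h2, (congrArg (Tape.apply · _) (effOp_symB c o)).trans ht⟩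
        rcases h3 with rfl | rfl | rfl | rfl <;>
          simp only [MachC.next, machB, hq, if_false, h1, actB]
        · exact ⟨_, rfl, h4 _ (apply_mvR _ _ (rt_ne_nil _))⟩
        · exact ⟨_, rfl, h4 _ (apply_erR _ _ (rt_ne_nil _))⟩
        · exact ⟨_, rfl, h4 _ (apply_dlL _ _ (concB_ne_nil _))⟩
        · exact ⟨_, rfl, h4 _ (apply_dlR _ _ (rt_ne_nil _))⟩

theorem not_detForg_B {κ : Type} [DecidableEq κ] [Fintype κ] (hn : 262176 ≤ Fintype.card κ)
    (z : κ) : ¬ DetForg {Op.mvR, Op.erR, Op.dlL, Op.dlR} (witness z) := by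
  rintro ⟨S, _, M, ho, hd, hL⟩
  have h : CorrL (machB M) M.start [] 0 [z] := by
    refine ⟨by simp, fun w => ?_⟩
    have := sim_iff hd (machB M) relB (fun _ _ _ _ _ _ h => h) (simB_step M ho)
      (cf := ⟨true, M.start, [], 0, w⟩) (x := M.init w) rfl
    exact this.trans (show w ∈ M.language ↔ w ∈ witness z by rw [hL])
  obtain ⟨q, hq⟩ := h.bot
  exact no_machine hn hq

end Pool.Agent.P.MP_47d067_lc
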