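import Pool.Agent.P.MP_47d067_lc.Fam

/-!
The growth step: every separated family yields one with twice the potential.
-/

set_option autoImplicit false

namespace Pool.Agent.P.MP_47d067_lc

open Finset MachC

theorem exists_lab {K : Type} [AddCommMonoid K] (o : K) {P : ℕ} (hP : 1 ≤ P)
    (hper : ∀ a b, P ≤ a → P ≤ b → a % P = b % P → a • o = b • o) (φ t : ℕ) :
    ∃ L : Finset (ℕ × K), L.Nonempty ∧ L.card ≤ 4 * 2 ^ t ∧ ∀ e p len, e % P = φ → t ≤ p →
      len + t = 2 * p → ((e + p) % P ≤ t ∨ p = t) → ((e + p) % P, len • o) ∈ L := by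
  classical
  refine ⟨((insert ((φ + t) % P) (range (t + 1))) ×ˢ (univ : Finset Bool)).image fun z =>
    (z.1, (2 * ((z.1 + P - φ) % P + if z.2 then P * (t + 1) else 0) - t) • o), ?_, ?_, ?_⟩
  · exact Nonempty.image (Nonempty.product (insert_nonempty _ _) univ_nonempty) _
  · refine card_image_le.trans ?_
    rw [card_product, card_univ, Fintype.card_bool]
    have h1 := card_insert_le ((φ + t) % P) (range (t + 1))
    have h2 : t + 1 ≤ 2 ^ t := Nat.lt_two_pow_self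
    rw [card_range] at h1
    omega
  · intro e p len he ht hlen hz
    have hφ : φ < P := he ▸ Nat.mod_lt _ hP
    have key : ((e + p) % P + P - φ) % P = p % P := by
      have h1 : (e + p) % P + P - φ + φ ≡ p + φ [MOD P] := by
        rw [Nat.sub_add_cancel (by omega), ← he]
        unfold Nat.ModEq
        simp [Nat.add_mod, add_comm]
      exact Nat.ModEq.add_right_cancel' φ h1
    have hmem : (e + p) % P ∈ insert ((φ + t) % P) (range (t + 1)) := by
      rcases hz with hz | hz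
      · exact mem_insert_of_mem (mem_range.2 (by omega))
      · rw [hz, ← he, Nat.mod_add_mod]; exact mem_insert_self _ _
    by_cases hp : p < P
    · refine mem_image.2 ⟨((e + p) % P, false), mem_product.2 ⟨hmem, mem_univ _⟩, ?_⟩
      simp only [key, Nat.mod_eq_of_lt hp]
      congr 2
      simp; omega
    · refine mem_image.2 ⟨((e + p) % P, true), mem_product.2 ⟨hmem, mem_univ _⟩, ?_⟩
      simp only [key, if_true]
      have h1 : t + 1 ≤ P * (t + 1) := Nat.le_mul_of_pos_left _ hP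
      have h2 : P ≤ P * (t + 1) := Nat.le_mul_of_pos_right _ (by omega)
      congr 1
      have h3 : 2 * (p % P + P * (t + 1)) - t + t ≡ len + t [MOD P] := by
        rw [Nat.sub_add_cancel (by omega), hlen]
        refine Nat.ModEq.mul_left 2 ?_
        unfold Nat.ModEq
        simp
      have h4 := Nat.ModEq.add_right_cancel' t h3
      generalize P * (t + 1) = Z at h1 h2 h4 ⊢
      exact hper _ _ (by omega) (by omega) h4

theorem exists_common {α β : Type} [Fintype β] [Nonempty β] (S : Finset α) (R : α → β → Prop)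
    [∀ a b, Decidable (R a b)] (C : ℕ)
    (h : ∀ a ∈ S, Fintype.card β ≤ C * (univ.filter fun y => R a y).card) :
    ∃ y, S.card ≤ C * (S.filter fun a => R a y).card := by
  by_contra hc
  push Not at hc
  have h1 : ∑ y : β, C * (S.filter fun a => R a y).card < ∑ _y : β, S.card :=
    sum_lt_sum_of_nonempty univ_nonempty fun y _ => hc y
  have h2 : ∑ _a ∈ S, Fintype.card β ≤ ∑ a ∈ S, C * (univ.filter fun y => R a y).card :=
    sum_le_sum h
  have h3 : ∑ y : β, (S.filter fun a => R a y).card =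
      ∑ a ∈ S, (univ.filter fun y => R a y).card := by
    simp only [card_filter]
    exact sum_comm
  rw [← mul_sum, h3] at h1
  rw [← mul_sum] at h2
  simp only [sum_const, card_univ, smul_eq_mul] at h1 h2
  rw [mul_comm S.card] at h2
  exact absurd (h2.trans_lt h1) (lt_irrefl _)

variable {κ Q K : Type} [DecidableEq κ] [AddCommMonoid K] [Fintype κ]

def Fam (M : MachC (Letter κ) Q K) (C : Ctx κ K) (P N s : ℕ) : Prop :=
  ∃ (ι : Type) (S : Finset ι) (m : ι → Mem κ Q K) (τ : List (Cell (Letter κ) K)) (g : K)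
    (d φ : ℕ), S.card = N ∧ τ.length = s ∧
    (∀ c ∈ S, Good M C P (m c) ∧ (m c).τ = τ ∧ (m c).g = g ∧ (m c).r.length = d ∧
      (m c).e % P = φ) ∧
    ∀ c ∈ S, ∀ c' ∈ S, c ≠ c' → Sep M P (m c) (m c')

variable {M : MachC (Letter κ) Q K} {C : Ctx κ K} {P : ℕ}

theorem fam_bound [Fintype Q] {N s : ℕ} (h : Fam M C P N s) : N ≤ Fintype.card Q := by
  obtain ⟨ι, S, m, τ, g, d, φ, rfl, -, h1, h2⟩ := h
  refine card_le_card_of_injOn (t := univ) (fun c => (m c).q) (fun _ _ => by simp) ?_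
  intro c hc c' hc' hq
  by_contra hne
  obtain ⟨-, a1, a2, a3, -⟩ := h1 c hc
  obtain ⟨-, b1, b2, b3, -⟩ := h1 c' hc'
  have r1 := Rch.refl (M := M) (P := P) (m c)
  have r2 := Rch.refl (M := M) (P := P) (m c')
  simp only at hq
  rw [a1, a2, hq] at r1
  rw [b1, b2] at r2
  exact h2 c hc c' hc' hne _ _ _ _ _ _ _ r1 r2 (a3.trans b3.symm)

theorem fam_of {ι : Type} (S : Finset ι) (m : ι → Mem κ Q K) (X : List (Cell (Letter κ) K))
    (E : K) (d φ : ℕ)
    (h : ∀ c ∈ S, Good M C P (m c) ∧ (∃ j b, M.ShAt X E j b (m c).τ (m c).g) ∧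
      (m c).r.length = d ∧ (m c).e % P = φ)
    (hs : ∀ c ∈ S, ∀ c' ∈ S, c ≠ c' → Sep M P (m c) (m c')) :
    ∃ N' s', Fam M C P N' s' ∧ S.card * 2 ^ s' ≤ 4 * N' * 2 ^ X.length := by
  classical
  have h' : ∀ c ∈ S, ∃ j b, M.ShAt X E j b (m c).τ (m c).g := fun c hc => (h c hc).2.1
  choose! j b hj using h'
  obtain ⟨t, c0, ht⟩ := geo_bool_pigeon S j b
  refine ⟨_, _, ⟨ι, S.filter fun c => j c = t ∧ b c = c0, m, blankIf c0 (X.drop t),
    M.mass (X.take t) + E, d, φ, rfl, rfl, fun c hc => ?_,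
    fun c hc c' hc' => hs c (mem_filter.1 hc).1 c' (mem_filter.1 hc').1⟩, ?_⟩
  · obtain ⟨hc', rfl, rfl⟩ := mem_filter.1 hc
    exact ⟨(h c hc').1, (hj c hc').2.1, (hj c hc').2.2, (h c hc').2.2⟩
  · rcases (S.filter fun c => j c = t ∧ b c = c0).eq_empty_or_nonempty with he | ⟨c, hc⟩
    · rw [he] at ht
      simp only [card_empty, mul_zero, nonpos_iff_eq_zero] at ht
      simp [ht]
    · obtain ⟨hc', rfl, rfl⟩ := mem_filter.1 hc
      have hl := (hj c hc').length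
      rw [← (hj c hc').2.1, ← hl]
      calc _ ≤ (2 ^ (j c + 2) * _) * 2 ^ (m c).τ.length := Nat.mul_le_mul_right _ ht
        _ = _ := by ring

def LabSpec (o : K) (P : ℕ) (Lab : ℕ → ℕ → Finset (ℕ × K)) : Prop :=
  ∀ φ t, (Lab φ t).Nonempty ∧ (Lab φ t).card ≤ 4 * 2 ^ t ∧ ∀ e p len, e % P = φ → t ≤ p →
    len + t = 2 * p → ((e + p) % P ≤ t ∨ p = t) → ((e + p) % P, len • o) ∈ Lab φ t

theorem Ev.label {Lab : ℕ → ℕ → Finset (ℕ × K)} (hL : LabSpec M.one P Lab) {a : Mem κ Q K}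
    (h : Pre M C a) {γ e' len} (he : Ev M P a γ e' len) :
    a.r.length ≤ γ.length ∧ (e' % P, len • M.one) ∈ Lab (a.e % P) (γ.length - a.r.length) := by
  have z := he.zone h
  have l1 := Zone.length z
  obtain ⟨v, y, q1, τ1, g1, e, k, -, -, -, h3, rfl⟩ := he
  have l2 := prun_len (a.r, a.e) (v ++ [y])
  rw [h3] at l2
  simp only [List.length_append, List.length_cons, List.length_nil] at l1 l2
  refine ⟨l1, ?_⟩
  obtain ⟨p, rfl⟩ := Nat.exists_eq_add_of_le l2.2.1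
  refine (hL _ _).2.2 a.e p _ rfl (by omega) (by omega) ?_
  rcases z.2 with z | z
  · left; simp only at z; omega
  · right; simp only at z; omega

def Thick (M : MachC (Letter κ) Q K) (P : ℕ) (Lab : ℕ → ℕ → Finset (ℕ × K))
    (a : Mem κ Q K) : Prop :=
  ∃ (t : ℕ) (l : ℕ × K) (G : Finset (List κ)), l ∈ Lab (a.e % P) t ∧ 1024 * 4 ^ t ≤ G.card ∧
    ∀ γ ∈ G, γ.length = a.r.length + t ∧
      ∃ e' len, Ev M P a.flat γ e' len ∧ (e' % P, len • M.one) = l

theorem thick_case {Lab : ℕ → ℕ → Finset (ℕ × K)} (hL : LabSpec M.one P Lab) {ι : Type}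
    (S : Finset ι) (a : ι → Mem κ Q K) (X : List (Cell (Letter κ) K)) (d φ : ℕ)
    (h : ∀ c ∈ S, Good M C P (a c) ∧ (∃ j b, M.ShAt X 0 j b (a c).τ (a c).g) ∧
      (a c).r.length = d ∧ (a c).e % P = φ ∧ Thick M P Lab (a c))
    (hs : ∀ c ∈ S, ∀ c' ∈ S, c ≠ c' → Sep M P (a c) (a c')) :
    ∃ N' s', Fam M C P N' s' ∧ 128 * S.card * 2 ^ s' ≤ 4 * N' * 2 ^ X.length := by
  classical
  have h' : ∀ c ∈ S, ∃ (t : ℕ) (l : ℕ × K) (G : Finset (List κ)), l ∈ Lab φ t ∧
      1024 * 4 ^ t ≤ G.card ∧ ∀ γ ∈ G, γ.length = d + t ∧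
      ∃ e' len, Ev M P (a c).flat γ e' len ∧ (e' % P, len • M.one) = l := by
    intro c hc
    obtain ⟨-, -, rfl, rfl, h5⟩ := h c hc
    exact h5
  have : Nonempty K := ⟨0⟩
  choose! tt ll G hG using h'
  obtain ⟨t, ht⟩ := geo_pigeon S tt
  obtain ⟨l, -, hl⟩ := unif_pigeon (S.filter fun c => tt c = t) ll (Lab φ t) (hL φ t).1
    (fun c hc => by
      obtain ⟨hc', rfl⟩ := mem_filter.1 hc
      exact (hG c hc').1)
  set S3 := (S.filter fun c => tt c = t).filter fun c => ll c = l with hS3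
  have hS3' : ∀ c ∈ S3, c ∈ S ∧ tt c = t ∧ ll c = l := fun c hc =>
    ⟨(mem_filter.1 (mem_filter.1 hc).1).1, (mem_filter.1 (mem_filter.1 hc).1).2,
      (mem_filter.1 hc).2⟩
  have hb : ∀ p : (Σ _ : ι, List κ), ∃ b : Mem κ Q K, p ∈ S3.sigma G →
      Adv M P (a p.1) b ∧ b.r = p.2 ∧ b.e % P = l.1 ∧ ∃ j b', M.ShAt X l.2 j b' b.τ b.g := by
    intro p
    by_cases hp : p ∈ S3.sigma G
    · obtain ⟨hp1, hp2⟩ := mem_sigma.1 hp
      obtain ⟨hc, -, rfl⟩ := hS3' _ hp1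
      obtain ⟨-, e', len, he, hlab⟩ := (hG _ hc).2.2 _ hp2
      obtain ⟨b, b1, b2, b3, b4⟩ := ev_next (h _ hc).1 he
      obtain ⟨j0, b0, h0⟩ := (h _ hc).2.1
      refine ⟨b, fun _ => ⟨b1, b2, by rw [b3, ← hlab], ?_⟩⟩
      have := b4 X 0 j0 b0 h0
      rwa [zero_add, show len • M.one = (ll p.1).2 by rw [← hlab]] at this
    · exact ⟨a p.1, fun h => absurd h hp⟩
  choose b hb using hb
  have hlen : ∀ p ∈ S3.sigma G, p.1 ∈ S ∧ (b p).r.length = d + t := by
    intro p hp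
    obtain ⟨hp1, hp2⟩ := mem_sigma.1 hp
    obtain ⟨hc, rfl, -⟩ := hS3' _ hp1
    exact ⟨hc, by rw [(hb p hp).2.1]; exact ((hG _ hc).2.2 _ hp2).1⟩
  obtain ⟨N', s', hF, hN⟩ := fam_of (M := M) (C := C) (P := P) (S3.sigma G) b X l.2 (d + t) l.1
    (fun p hp => ⟨(h _ (hlen p hp).1).1.adv (hb p hp).1, (hb p hp).2.2.2, (hlen p hp).2,
      (hb p hp).2.2.1⟩)
    (fun p hp p' hp' hne => by
      by_cases hc : p.1 = p'.1
      · refine sep_same (h _ (hlen p hp).1).1 (hb p hp).1 (hc ▸ (hb p' hp').1)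
          ((hlen p hp).2.trans (hlen p' hp').2.symm) ?_
        rw [(hb p hp).2.1, (hb p' hp').2.1]
        intro h2
        exact hne (Sigma.ext hc (heq_of_eq h2))
      · exact (hs _ (hlen p hp).1 _ (hlen p' hp').1 hc).adv (h _ (hlen p hp).1).1.pre
          (h _ (hlen p' hp').1).1.pre (hb p hp).1 (hb p' hp').1)
  refine ⟨N', s', hF, le_trans (Nat.mul_le_mul_right _ ?_) hN⟩
  have h1 : S3.card * (1024 * 4 ^ t) ≤ (S3.sigma G).card := by
    rw [card_sigma, ← smul_eq_mul]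
    refine card_nsmul_le_sum _ _ _ fun c hc => ?_
    obtain ⟨hc', rfl, -⟩ := hS3' _ hc
    exact (hG _ hc').2.1
  have h2 := (hL φ t).2.1
  calc 128 * S.card ≤ 128 * (2 ^ (t + 1) * ((4 * 2 ^ t) * S3.card)) := by
        refine Nat.mul_le_mul_left _ (ht.trans (Nat.mul_le_mul_left _ (hl.trans ?_)))
        exact Nat.mul_le_mul_right _ h2
    _ = S3.card * (1024 * 4 ^ t) := by
        rw [show (4 : ℕ) ^ t = 2 ^ t * 2 ^ t by rw [← mul_pow]; rfl]; ring
    _ ≤ _ := h1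

theorem thin_weight [Finite Q] [Finite K] {Lab : ℕ → ℕ → Finset (ℕ × K)}
    (hL : LabSpec M.one P Lab) {a : Mem κ Q K} (h : Pre M C a) (ht : ¬ Thick M P Lab a) :
    ∃ Γ : Finset (List κ), (∀ γ e' len, Ev M P a.flat γ e' len → γ ∈ Γ) ∧
      wt Γ a.r ≤ 2 * (4096 : ℕ) := by
  classical
  have hf := ev_finite (P := P) h.flat
  refine ⟨hf.toFinset, fun γ e' len he => hf.mem_toFinset.2 ⟨e', len, he⟩,
    wt_bound _ _ _ fun t => ?_⟩
  let G : ℕ × K → Finset (List κ) := fun l => hf.toFinset.filter fun γ =>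
    γ.length = a.r.length + t ∧ ∃ e' len, Ev M P a.flat γ e' len ∧ (e' % P, len • M.one) = l
  have h1 : (hf.toFinset.filter fun γ => γ.length - a.r.length = t) ⊆
      (Lab (a.e % P) t).biUnion G := by
    intro γ hγ
    obtain ⟨hγ', rfl⟩ := mem_filter.1 hγ
    obtain ⟨e', len, he⟩ := hf.mem_toFinset.1 hγ'
    have := he.label hL h.flat
    exact mem_biUnion.2 ⟨_, this.2, mem_filter.2 ⟨hγ', (Nat.add_sub_cancel' this.1).symm,
      e', len, he, rfl⟩⟩
  have h2 : ∀ l ∈ Lab (a.e % P) t, (G l).card ≤ 1024 * 4 ^ t := by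
    intro l hl
    by_contra hc
    exact ht ⟨t, l, G l, hl, by omega, fun γ hγ => (mem_filter.1 hγ).2⟩
  calc _ ≤ _ := card_le_card h1
    _ ≤ (Lab (a.e % P) t).card * (1024 * 4 ^ t) := card_biUnion_le_card_mul _ _ _ h2
    _ ≤ (4 * 2 ^ t) * (1024 * 4 ^ t) := Nat.mul_le_mul_right _ (hL _ _).2.1
    _ = _ := by rw [show (8 : ℕ) ^ t = 2 ^ t * 4 ^ t by rw [← mul_pow]; rfl]; ring

theorem mass_take_cons {A : Type} (M : MachC A Q K) (c c' : Option A) (k : K)
    (τ : List (Cell A K)) (j : ℕ) :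
    M.mass (((c, k) :: τ).take j) = M.mass (((c', k) :: τ).take j) := by
  cases j <;> rfl

theorem thin_case [Finite Q] [Finite K] (hn : 262176 ≤ Fintype.card κ) (hP : 1 ≤ P)
    {Lab : ℕ → ℕ → Finset (ℕ × K)} (hL : LabSpec M.one P Lab) {ι : Type}
    (S : Finset ι) (a : ι → Mem κ Q K) (x : ι → κ) (τ : List (Cell (Letter κ) K)) (g : K)
    (d φ : ℕ) (hd : 2 ≤ d)
    (h : ∀ c ∈ S, Good M C P (a c) ∧
      (∃ j b, M.ShAt ((some (none, x c), g) :: τ) 0 j b (a c).τ (a c).g) ∧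
      (∃ r1, (a c).r = x c :: r1 ∧ r1.length = d) ∧ (a c).e % P = φ ∧ ¬ Thick M P Lab (a c))
    (hs : ∀ c ∈ S, ∀ c' ∈ S, c ≠ c' → x c = x c' → Sep M P (a c) (a c')) :
    ∃ N' s', Fam M C P N' s' ∧ S.card * 2 ^ s' ≤ 128 * N' * 2 ^ τ.length := by
  classical
  have : Nonempty κ := Fintype.card_pos_iff.1 (by omega)
  have h1 : ∀ c ∈ S, ∃ Γ : Finset (List κ), (∀ γ e' len, Ev M P (a c).flat γ e' len → γ ∈ Γ) ∧
      wt Γ (a c).r ≤ 2 * (4096 : ℕ) := fun c hc => thin_weight hL (h c hc).1.pre (h c hc).2.2.2.2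
  choose! Γ hΓ using h1
  let W : ι → List κ → ℝ := fun c u => (a c).W u + wt (Γ c) u
  have hW : ∀ c ∈ S, SuperH (W c) := fun c hc => (h c hc).1.pre.sup.add (wt_superH _)
  have hW' : ∀ c u, (a c).W u ≤ W c u := fun c u => le_add_of_nonneg_right ((wt_superH _).1 u)
  obtain ⟨y, hy⟩ := exists_common S (fun c y => W c (y :: (a c).r) < 1) 2 fun c hc => by
    have := (hW c hc).good_card (a c).r 8193 (by
      have t1 := (h c hc).1.pre.lt
      have t2 := (hΓ c hc).2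
      simp only [W]
      push_cast at t2 ⊢
      linarith)
    omega
  have h2 : ∀ c ∈ S, ∃ j b, M.ShAt ((some (none, x c), g) :: τ) 0 j b (a c).τ (a c).g :=
    fun c hc => (h c hc).2.1
  choose! jj bb hj using h2
  obtain ⟨j, b0, hjb⟩ := geo_bool_pigeon (S.filter fun c => W c (y :: (a c).r) < 1) jj bb
  set S4 := (S.filter fun c => W c (y :: (a c).r) < 1).filter fun c => jj c = j ∧ bb c = b0
    with hS4
  have hS4' : ∀ c ∈ S4, c ∈ S ∧ W c (y :: (a c).r) < 1 ∧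
      M.ShAt ((some (none, x c), g) :: τ) 0 j b0 (a c).τ (a c).g := by
    intro c hc
    obtain ⟨hc', rfl, rfl⟩ := mem_filter.1 hc
    exact ⟨(mem_filter.1 hc').1, (mem_filter.1 hc').2, hj c (mem_filter.1 hc').1⟩
  let g0 : K := M.mass (((none, g) :: τ).take j) + 0
  have hb : ∀ c, ∃ b : Mem κ Q K, c ∈ S4 → Good M C P b ∧
      Rch M P (a c).flat b.q b.τ b.g b.r b.e ∧ b.W = W c ∧ b.r = y :: (a c).r ∧
      b.e = (a c).e + 1 ∧ ∃ j' b', M.ShAt [(some (none, y), g0)] 0 j' b' b.τ b.g := by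
    intro c
    by_cases hc : c ∈ S4
    · obtain ⟨hcS, hcy, hsh⟩ := hS4' c hc
      have hp := (h c hcS).1.pre.flat
      have hno : ∀ γ e' len, Ev M P (a c).flat γ e' len → ¬ W c γ < 1 := by
        intro γ e' len he hlt
        have t1 := wt_self ((hΓ c hcS).1 _ _ _ he)
        have t2 := (h c hcS).1.pre.sup.1 γ
        simp only [W] at hlt
        linarith
      have hg : (a c).g = g0 := by rw [hsh.2.2, mass_take_cons M _ none]
      have hstep := (Rch.refl (M := M) (P := P) (a c).flat).step hp (none, y) (by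
        rw [pstep_push]
        exact Zone.push hp.root ((hW' c _).trans_lt hcy))
      rw [pstep_push] at hstep
      rcases hstep with ⟨q2, τ2, g2, hs2, hr2⟩ | ⟨len, he⟩
      · refine ⟨⟨q2, τ2, g2, (a c).flat.μ, y :: (a c).r, (a c).e + 1, W c⟩, fun _ =>
          ⟨good_of_flat hp hr2 rfl (hW c hcS) hcy (hW' c)
            fun γ e' len he hz => hno _ _ _ he hz.lt_one, hr2, rfl, rfl, rfl, ?_⟩⟩
        rw [← hg]
        exact hs2.shape rfl (ShAt.refl _ _)
      · exact absurd hcy (hno _ _ _ he)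
    · exact ⟨a c, fun h => absurd h hc⟩
  choose b hb using hb
  obtain ⟨N', s', hF, hN⟩ := fam_of (M := M) (C := C) (P := P) S4 b [(some (none, y), g0)] 0
    (d + 2) ((φ + 1) % P)
    (fun c hc => by
      obtain ⟨b1, -, -, b4, b5, b6⟩ := hb c hc
      obtain ⟨-, -, ⟨r1, a1, a2⟩, a3, -⟩ := h c (hS4' c hc).1
      refine ⟨b1, b6, by rw [b4, a1]; simp [a2], by rw [b5, ← a3, Nat.mod_add_mod]⟩)
    (fun c hc c' hc' hne => by
      obtain ⟨b1, b2, b3, b4, -⟩ := hb c hc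
      obtain ⟨b1', b2', b3', b4', -⟩ := hb c' hc'
      obtain ⟨a0, -, ⟨r1, a1, a2⟩, -⟩ := h c (hS4' c hc).1
      obtain ⟨a0', -, ⟨r2, a1', a2'⟩, -⟩ := h c' (hS4' c' hc').1
      by_cases hx : x c = x c'
      · intro q1 τ1 g1 u e1 u' e1' r r'
        have t1 := (b2.trans a0.pre.flat (fun u => by rw [b3]; exact hW' c u) r).unflat
        have t2 := (b2'.trans a0'.pre.flat (fun u => by rw [b3']; exact hW' c' u) r').unflat
        have t3 : (a c).τ = (a c').τ := by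
          rw [(hS4' c hc).2.2.2.1, (hS4' c' hc').2.2.2.1, hx]
        rw [t3] at t1
        exact hs c (hS4' c hc).1 c' (hS4' c' hc').1 hne hx _ _ _ _ _ _ _ t1 t2
      · exact sep_diff (by omega) hP b1.pre b1' (b4.trans (by rw [a1])) (b4'.trans (by rw [a1']))
          (by omega) (by omega) hx)
  refine ⟨N', s', hF, ?_⟩
  rcases S4.eq_empty_or_nonempty with he | ⟨c, hc⟩
  · rw [he] at hjb
    simp only [card_empty, mul_zero, nonpos_iff_eq_zero] at hjb
    rw [hjb] at hy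
    simp only [mul_zero, nonpos_iff_eq_zero] at hy
    simp [hy]
  · have hj' : j ≤ τ.length + 1 := (hS4' c hc).2.2.1
    have t1 : 2 ^ (j + 2) ≤ 2 ^ (τ.length + 3) := Nat.pow_le_pow_right (by norm_num) (by omega)
    calc S.card * 2 ^ s' ≤ (2 * (2 ^ (τ.length + 3) * S4.card)) * 2 ^ s' :=
          Nat.mul_le_mul_right _ (hy.trans (Nat.mul_le_mul_left _
            (hjb.trans (Nat.mul_le_mul_right _ t1))))
      _ = 16 * 2 ^ τ.length * (S4.card * 2 ^ s') := by ring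
      _ ≤ 16 * 2 ^ τ.length * (4 * N' * 2 ^ 1) := Nat.mul_le_mul_left _ hN
      _ = _ := by ring

theorem adv_push {a : Mem κ Q K} (h : Good M C P a) (x : κ) (hx : a.W (x :: a.r) < 1) :
    ∃ b, Adv M P a b ∧ b.r = x :: a.r ∧ b.e = a.e + 1 ∧
      ∃ j b', M.ShAt ((some (none, x), a.g) :: a.τ) 0 j b' b.τ b.g := by
  have hstep := (Rch.refl (M := M) (P := P) a).step h.pre (none, x) (by
    rw [pstep_push]
    exact Zone.push h.pre.root hx)
  rw [pstep_push] at hstep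
  rcases hstep with ⟨q2, τ2, g2, hs2, hr2⟩ | ⟨len, he⟩
  · exact ⟨⟨q2, τ2, g2, a.μ, x :: a.r, a.e + 1, a.W⟩, ⟨hr2, rfl, rfl⟩, rfl, rfl,
      hs2.shape rfl (ShAt.refl _ _)⟩
  · exact absurd he (h.safe _ _ _)

theorem fam_step [Finite Q] [Finite K] (hn : 262176 ≤ Fintype.card κ) (hP : 1 ≤ P)
    {Lab : ℕ → ℕ → Finset (ℕ × K)} (hL : LabSpec M.one P Lab) {N s : ℕ} (h : Fam M C P N s) :
    ∃ N' s', Fam M C P N' s' ∧ 2 * N * 2 ^ s' ≤ N' * 2 ^ s := by
  classical
  have : Nonempty κ := Fintype.card_pos_iff.1 (by omega)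
  obtain ⟨ι, S, m, τ, g, d, φ, rfl, rfl, h1, h2⟩ := h
  rcases S.eq_empty_or_nonempty with rfl | ⟨c0, hc0⟩
  · exact ⟨0, τ.length, ⟨ι, ∅, m, τ, g, d, φ, rfl, rfl, h1, h2⟩, by simp⟩
  have hd : 2 ≤ d := (h1 c0 hc0).2.2.2.1 ▸ (h1 c0 hc0).1.pre.two
  have ha : ∀ c x, ∃ b : Mem κ Q K, c ∈ S → (m c).W (x :: (m c).r) < 1 →
      Adv M P (m c) b ∧ b.r = x :: (m c).r ∧ b.e % P = (φ + 1) % P ∧
      ∃ j b', M.ShAt ((some (none, x), g) :: τ) 0 j b' b.τ b.g := by
    intro c x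
    by_cases hc : c ∈ S ∧ (m c).W (x :: (m c).r) < 1
    · obtain ⟨a0, rfl, rfl, -, rfl⟩ := h1 c hc.1
      obtain ⟨b, b1, b2, b3, b4⟩ := adv_push a0 x hc.2
      exact ⟨b, fun _ _ => ⟨b1, b2, by rw [b3, Nat.mod_add_mod], b4⟩⟩
    · exact ⟨m c, fun h h' => absurd ⟨h, h'⟩ hc⟩
  choose a ha using ha
  let R : ι → κ → Prop := fun c x => (m c).W (x :: (m c).r) < 1 ∧ Thick M P Lab (a c x)
  let T : ι → Prop := fun c => Fintype.card κ ≤ 4 * (univ.filter fun x => R c x).card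
  have hsplit := card_filter_add_card_filter_not (s := S) T
  by_cases hA : S.card ≤ 2 * (S.filter T).card
  · obtain ⟨x, hx⟩ := exists_common (S.filter T) R 4 fun c hc => (mem_filter.1 hc).2
    have hm : ∀ c ∈ (S.filter T).filter fun c => R c x, c ∈ S ∧ R c x := fun c hc =>
      ⟨(mem_filter.1 (mem_filter.1 hc).1).1, (mem_filter.1 hc).2⟩
    obtain ⟨N', s', hF, hN⟩ := thick_case (C := C) hL ((S.filter T).filter fun c => R c x)
      (fun c => a c x) ((some (none, x), g) :: τ) (d + 1) ((φ + 1) % P)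
      (fun c hc => by
        obtain ⟨hc, hw, ht⟩ := hm c hc
        obtain ⟨b1, b2, b3, b4⟩ := ha c x hc hw
        exact ⟨(h1 c hc).1.adv b1, b4, by rw [b2, ← (h1 c hc).2.2.2.1]; rfl, b3, ht⟩)
      (fun c hc c' hc' hne => (h2 c (hm c hc).1 c' (hm c' hc').1 hne).adv
        (h1 c (hm c hc).1).1.pre (h1 c' (hm c' hc').1).1.pre
        (ha c x (hm c hc).1 (hm c hc).2.1).1 (ha c' x (hm c' hc').1 (hm c' hc').2.1).1)
    refine ⟨N', s', hF, Nat.le_of_mul_le_mul_left ?_ (show 0 < 8 by norm_num)⟩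
    rw [List.length_cons, pow_succ] at hN
    calc 8 * (2 * S.card * 2 ^ s') = 16 * S.card * 2 ^ s' := by ring
      _ ≤ 128 * ((S.filter T).filter fun c => R c x).card * 2 ^ s' :=
          Nat.mul_le_mul_right _ (by omega)
      _ ≤ _ := hN
      _ = _ := by ring
  · let G : ι → Finset κ := fun c =>
      univ.filter fun x => (m c).W (x :: (m c).r) < 1 ∧ ¬ Thick M P Lab (a c x)
    have hm : ∀ p ∈ (S.filter fun c => ¬ T c).sigma G, p.1 ∈ S ∧
        (m p.1).W (p.2 :: (m p.1).r) < 1 ∧ ¬ Thick M P Lab (a p.1 p.2) := fun p hp =>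
      ⟨(mem_filter.1 (mem_sigma.1 hp).1).1, (mem_filter.1 (mem_sigma.1 hp).2).2⟩
    obtain ⟨N', s', hF, hN⟩ := thin_case (C := C) hn hP hL ((S.filter fun c => ¬ T c).sigma G)
      (fun p => a p.1 p.2) (fun p => p.2) τ g d ((φ + 1) % P) hd
      (fun p hp => by
        obtain ⟨hc, hw, ht⟩ := hm p hp
        obtain ⟨b1, b2, b3, b4⟩ := ha _ _ hc hw
        exact ⟨(h1 _ hc).1.adv b1, b4, ⟨_, b2, (h1 _ hc).2.2.2.1⟩, b3, ht⟩)
      (fun p hp p' hp' hne hx => (h2 _ (hm p hp).1 _ (hm p' hp').1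
        fun hc => hne (Sigma.ext hc (heq_of_eq hx))).adv
        (h1 _ (hm p hp).1).1.pre (h1 _ (hm p' hp').1).1.pre
        (ha _ _ (hm p hp).1 (hm p hp).2.1).1 (ha _ _ (hm p' hp').1 (hm p' hp').2.1).1)
    have hG : (S.filter fun c => ¬ T c).card * 131088 ≤
        ((S.filter fun c => ¬ T c).sigma G).card := by
      rw [card_sigma, ← smul_eq_mul]
      refine card_nsmul_le_sum _ _ _ fun c hc => ?_
      obtain ⟨hc, hT⟩ := mem_filter.1 hc
      have t1 := (h1 c hc).1.pre.sup.good_card (m c).r 1 (by simpa using (h1 c hc).1.pre.lt.le)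
      have t2 := card_filter_add_card_filter_not
        (s := univ.filter fun x => (m c).W (x :: (m c).r) < 1) fun x => Thick M P Lab (a c x)
      rw [filter_filter, filter_filter] at t2
      simp only [T, R] at hT
      simp only [G]
      omega
    refine ⟨N', s', hF, Nat.le_of_mul_le_mul_left ?_ (show 0 < 128 by norm_num)⟩
    calc 128 * (2 * S.card * 2 ^ s') = 256 * S.card * 2 ^ s' := by ring
      _ ≤ ((S.filter fun c => ¬ T c).sigma G).card * 2 ^ s' :=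
          Nat.mul_le_mul_right _ (by omega)
      _ ≤ _ := hN
      _ = _ := by ring

theorem no_fam [Finite Q] [Finite K] (hn : 262176 ≤ Fintype.card κ) (hP : 1 ≤ P)
    (hper : ∀ a b, P ≤ a → P ≤ b → a % P = b % P → a • M.one = b • M.one) {s : ℕ}
    (h : Fam M C P 1 s) : False := by
  choose Lab hL using exists_lab M.one hP hper
  have key : ∀ k, ∃ N s', Fam M C P N s' ∧ 2 ^ k * 2 ^ s' ≤ N * 2 ^ s := by
    intro k
    induction k with
    | zero => exact ⟨1, s, h, by simp⟩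
    | succ k ih =>
      obtain ⟨N, s1, hF, hN⟩ := ih
      obtain ⟨N', s2, hF', hN'⟩ := fam_step hn hP hL hF
      refine ⟨N', s2, hF', Nat.le_of_mul_le_mul_right (c := 2 ^ s1) ?_ (by positivity)⟩
      calc 2 ^ (k + 1) * 2 ^ s2 * 2 ^ s1 = 2 * 2 ^ s2 * (2 ^ k * 2 ^ s1) := by ring
        _ ≤ 2 * 2 ^ s2 * (N * 2 ^ s) := Nat.mul_le_mul_left _ hN
        _ = (2 * N * 2 ^ s2) * 2 ^ s := by ring
        _ ≤ (N' * 2 ^ s1) * 2 ^ s := Nat.mul_le_mul_right _ hN'
        _ = _ := by ring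
  have := Fintype.ofFinite Q
  obtain ⟨N, s', hF, hN⟩ := key (Fintype.card Q + s)
  have h1 := fam_bound hF
  have h2 : Fintype.card Q < 2 ^ Fintype.card Q := Nat.lt_two_pow_self
  have h3 : 2 ^ Fintype.card Q * 2 ^ s ≤ N * 2 ^ s := by
    rw [← pow_add]
    exact (Nat.le_mul_of_pos_right _ (by positivity)).trans hN
  have h4 := Nat.le_of_mul_le_mul_right h3 (by positivity)
  omega

end Pool.Agent.P.MP_47d067_lc
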