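import Pool.Agent.P.MP_47d067_lc.Defs

/-!
The witness language: a virtual stack of keys; a letter pops when its first component is the key
below the top, and otherwise pushes its second component.
-/

set_option autoImplicit false

namespace Pool.Agent.P.MP_47d067_lc

abbrev Letter (κ : Type) := Option κ × κ

variable {κ : Type} [DecidableEq κ]

def vstep : List κ → Letter κ → List κ
  | t :: p :: rest, x => if x.1 = some p then p :: rest else x.2 :: t :: p :: rest
  | u, x => x.2 :: u

def vrun (u : List κ) (w : List (Letter κ)) : List κ := w.foldl vstep u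

def witness (z : κ) : Language (Letter κ) := {w | (vrun [z] w).length = 1}

@[simp] theorem vrun_nil (u : List κ) : vrun u [] = u := rfl
@[simp] theorem vrun_cons (u : List κ) (x : Letter κ) (w : List (Letter κ)) :
    vrun u (x :: w) = vrun (vstep u x) w := rfl
theorem vrun_append (u : List κ) (v w : List (Letter κ)) :
    vrun u (v ++ w) = vrun (vrun u v) w := List.foldl_append ..

theorem vstep_pop (t p : κ) (rest : List κ) (ν : κ) :
    vstep (t :: p :: rest) (some p, ν) = p :: rest := by simp [vstep]

theorem vstep_push (u : List κ) (ν : κ) : vstep u (none, ν) = ν :: u := by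
  match u with
  | [] => rfl
  | [_] => rfl
  | _ :: _ :: _ => simp [vstep]

theorem vstep_miss (t p : κ) (rest : List κ) (a ν : κ) (h : a ≠ p) :
    vstep (t :: p :: rest) (some a, ν) = ν :: t :: p :: rest := by simp [vstep, h]

theorem vstep_cases (u : List κ) (x : Letter κ) :
    vstep u x = x.2 :: u ∨
      ∃ t p rest, u = t :: p :: rest ∧ x.1 = some p ∧ vstep u x = p :: rest := by
  match u with
  | [] => exact Or.inl rfl
  | [_] => exact Or.inl rfl
  | t :: p :: rest =>
    by_cases h : x.1 = some p
    · exact Or.inr ⟨t, p, rest, rfl, h, by simp [vstep, h]⟩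
    · exact Or.inl (by simp [vstep, h])

theorem vstep_append (u c : List κ) (x : Letter κ) (h : 2 ≤ u.length) :
    vstep (u ++ c) x = vstep u x ++ c := by
  match u, h with
  | t :: p :: rest, _ =>
    by_cases h : x.1 = some p <;> simp [vstep, h]

theorem vstep_ne_nil (u : List κ) (x : Letter κ) : vstep u x ≠ [] := by
  rcases vstep_cases u x with h | ⟨t, p, rest, -, -, h⟩ <;> simp [h]

theorem vrun_ne_nil (u : List κ) (w : List (Letter κ)) (h : u ≠ []) : vrun u w ≠ [] := by
  induction w generalizing u with
  | nil => exact h
  | cons x w ih => exact ih _ (vstep_ne_nil _ _)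

theorem length_le_vrun (u : List κ) (w : List (Letter κ)) :
    u.length ≤ (vrun u w).length + w.length := by
  induction w generalizing u with
  | nil => simp
  | cons x w ih =>
    have := ih (vstep u x)
    rcases vstep_cases u x with h | ⟨t, p, rest, hu, -, h⟩
    · rw [vrun_cons]; rw [h] at this ⊢; simp at this ⊢; omega
    · rw [vrun_cons]; rw [h] at this ⊢; subst hu; simp at this ⊢; omega

/-- A shortest word leading to the root tests exactly the keys below the top. -/
theorem geo_unique (u : List κ) (w : List (Letter κ)) (h1 : (vrun u w).length = 1)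
    (h2 : w.length + 1 ≤ u.length) : w.map Prod.fst = u.tail.map some := by
  induction w generalizing u with
  | nil =>
    match u, h1 with
    | [_], _ => rfl
  | cons x w ih =>
    rw [vrun_cons] at h1
    rcases vstep_cases u x with h | ⟨t, p, rest, hu, hx, h⟩
    · have := length_le_vrun (vstep u x) w
      rw [h1, h] at this
      simp at this h2
      omega
    · rw [h] at h1
      subst hu
      have := ih (p :: rest) h1 (by simp at h2 ⊢; omega)
      simp at this ⊢
      exact ⟨hx, this⟩

theorem geo_run (t : κ) (T : List κ) (w : List (Letter κ)) (h : w.map Prod.fst = T.map some) :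
    (vrun (t :: T) w).length = 1 := by
  induction T generalizing t w with
  | nil =>
    have : w = [] := by simpa using h
    subst this; rfl
  | cons p T ih =>
    match w, h with
    | (a, ν) :: w, h =>
      simp at h
      obtain ⟨rfl, h⟩ := h
      rw [vrun_cons, vstep_pop]
      exact ih p w h

theorem exists_accepted (u : List κ) (h : u ≠ []) : ∃ w, (vrun u w).length = 1 := by
  match u, h with
  | t :: T, _ => exact ⟨T.map fun p => (some p, t), geo_run t T _ (by simp)⟩

theorem exists_rejected (u : List κ) (h : u ≠ []) : ∃ w, (vrun u w).length ≠ 1 := by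
  match u, h with
  | t :: T, _ => exact ⟨[(none, t)], by simp [vstep_push]⟩

theorem eq_of_same_future_aux (u u' : List κ) (hu : u ≠ []) (hl : u.length ≤ u'.length)
    (h : ∀ w, (vrun u w).length = 1 → (vrun u' w).length = 1) : u = u' := by
  obtain ⟨t, T, rfl⟩ := List.exists_cons_of_ne_nil hu
  have h1 := geo_run t (t :: T) ((t :: T).map fun p => (some p, t)) (by simp)
  have h2 := h ((none, t) :: (t :: T).map fun p => (some p, t))
    (by rw [vrun_cons, vstep_push]; exact h1)
  rw [vrun_cons, vstep_push] at h2
  have h3 := geo_unique _ _ h2 (by simp at hl ⊢; omega)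
  rw [List.tail_cons, List.map_map] at h3
  exact List.map_injective_iff.2 (Option.some_injective _) h3

theorem eq_of_same_future (u u' : List κ) (hu : u ≠ []) (hu' : u' ≠ [])
    (h : ∀ w, (vrun u w).length = 1 ↔ (vrun u' w).length = 1) : u = u' := by
  rcases le_total u.length u'.length with hl | hl
  · exact eq_of_same_future_aux u u' hu hl fun w => (h w).1
  · exact (eq_of_same_future_aux u' u hu' hl fun w => (h w).2).symm

/-! ### The witness is deterministic context-free -/

/-- Stack symbol of a vertex: its key, the key below it, and whether the vertex below is the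
root. -/
def encTop : List κ → κ → κ × Option κ × Bool
  | rest, k => (k, rest.head?, decide (rest.length = 1))

def enc : List κ → List (κ × Option κ × Bool)
  | [] => []
  | k :: rest => encTop rest k :: enc rest

def witnessPDA (z : κ) : DPDA (Letter κ) Bool (κ × Option κ × Bool) where
  trans := fun _ x Z => match x with
    | none => none
    | some x =>
      if x.1 = Z.2.1 ∧ Z.2.1 ≠ none then some (Z.2.2, [])
      else some (false, [(x.2, some Z.1, decide (Z.2.1 = none)), Z])
  det := fun _ _ h => absurd rfl h
  start := true
  bottom := (z, none, false)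
  final := {true}

theorem pda_step (z : κ) (u : List κ) (hu : u ≠ []) (b : Bool) (x : Letter κ)
    (w : List (Letter κ)) (c : Bool × List (Letter κ) × List (κ × Option κ × Bool)) :
    (witnessPDA z).Step (b, x :: w, enc u) c ↔
      c = (decide ((vstep u x).length = 1), w, enc (vstep u x)) := by
  have key : ∃ Z s q' l, enc u = Z :: s ∧ (witnessPDA z).trans b (some x) Z = some (q', l) ∧
      q' = decide ((vstep u x).length = 1) ∧ l ++ s = enc (vstep u x) := by
    match u, hu with
    | [t], _ =>
      exact ⟨_, _, false, _, rfl, by simp [witnessPDA, encTop]; rfl, by simp [vstep],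
        by simp [vstep, enc, encTop]⟩
    | t :: p :: rest, _ =>
      by_cases h : x.1 = some p
      · exact ⟨_, _, decide (rest.length = 0), [], rfl, by simp [witnessPDA, encTop, h],
          by simp [vstep, h], by simp [vstep, h, enc]⟩
      · exact ⟨_, _, false, _, rfl, by simp [witnessPDA, encTop, h]; rfl, by simp [vstep, h],
          by simp [vstep, h, enc, encTop]⟩
  obtain ⟨Z, s, q', l, h1, h2, h3, h4⟩ := key
  rw [h1, ← h3, ← h4]
  constructor
  · intro h
    cases h with
    | read _ q'' _ _ _ l' _ h' =>
      rw [h2] at h'
      cases h'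
      rfl
    | eps _ q'' _ _ l' _ h' => simp [witnessPDA] at h'
  · rintro rfl
    exact DPDA.Step.read _ _ _ _ _ _ _ h2

theorem pda_run (z : κ) (w : List (Letter κ)) (u : List κ) (hu : u ≠ []) (q : Bool)
    (s : List (κ × Option κ × Bool)) :
    Relation.ReflTransGen (witnessPDA z).Step (decide (u.length = 1), w, enc u) (q, [], s) ↔
      q = decide ((vrun u w).length = 1) ∧ s = enc (vrun u w) := by
  induction w generalizing u with
  | nil =>
    constructor
    · intro h
      rcases h.cases_head with h | ⟨c, hc, -⟩
      · cases h; exact ⟨rfl, rfl⟩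
      · generalize enc u = e at hc
        cases hc with
        | eps _ q'' _ _ l' _ h' => simp [witnessPDA] at h'
    · rintro ⟨rfl, rfl⟩
      exact Relation.ReflTransGen.refl
  | cons x w ih =>
    rw [vrun_cons, ← ih _ (vstep_ne_nil u x)]
    constructor
    · intro h
      rcases h.cases_head with h | ⟨c, hc, h⟩
      · cases h
      · rw [pda_step z u hu] at hc
        rwa [hc] at h
    · intro h
      exact Relation.ReflTransGen.head ((pda_step z u hu _ x w _).2 rfl) h

theorem witness_isDCFL [Fintype κ] (z : κ) : IsDCFL (witness z) := by
  refine ⟨Bool, κ × Option κ × Bool, inferInstance, inferInstance, witnessPDA z, ?_⟩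
  ext w
  have h := pda_run z w [z] (by simp)
  constructor
  · rintro ⟨q, s, hq, hr⟩
    have hq : q = true := hq
    subst hq
    have := ((h true s).1 hr).1
    show (vrun [z] w).length = 1
    exact of_decide_eq_true this.symm
  · intro hw
    have hw : (vrun [z] w).length = 1 := hw
    exact ⟨true, enc (vrun [z] w), rfl, (h true _).2 ⟨by simp [hw], rfl⟩⟩

end Pool.Agent.P.MP_47d067_lc
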